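import Pool.Agent.Work.MP_3f690c_an.Defs

/-!
# Unital C*-algebras without characters: definitions and statements of the lemmas
-/

open scoped ComplexOrder

namespace Pool.Agent.Work.MP_3f690c_an.T3

universe u

section
variable (A : Type u) [CStarAlgebra A] [PartialOrder A] [StarOrderedRing A]

/-- The Douglas factorisation property: `w^* w ≤ x^* x` implies `w = y x` with `‖y‖ ≤ 1`. -/
def Douglas : Prop :=
  ∀ w x : A, star w * w ≤ star x * x → ∃ y : A, ‖y‖ ≤ 1 ∧ w = y * x

/-- The factorisation property for off-diagonal elements. -/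
def PropF : Prop :=
  ∀ e x w : A, 0 ≤ e → e * x = x → x * e = 0 → e * w = w → w * e = 0 →
    star w * w ≤ star x * x → ∃ y : A, ‖y‖ ≤ 1 ∧ w = y * x

/-- `1` is a finite sum of elements `b z c` with `z ^ 2 = 0`. -/
def SqZeroFull : Prop :=
  ∃ (m : ℕ) (b z c : Fin m → A), (∀ i, z i * z i = 0) ∧ ∑ i, b i * z i * c i = 1

/-- The span of all products `b z c` with `z ^ 2 = 0`. -/
noncomputable def sqIdeal : Submodule ℂ A :=
  Submodule.span ℂ {x : A | ∃ b z c : A, z * z = 0 ∧ x = b * z * c}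

end

section
variable {A : Type u} [CStarAlgebra A] [PartialOrder A] [StarOrderedRing A]

/-- Douglas factorisation for elements with right unit `k`. -/
def Nice (k : A) : Prop :=
  ∀ x w : A, x * k = x → star w * w ≤ star x * x → ∃ v : A, ‖v‖ ≤ 1 ∧ w = v * x

/-- `k` is a positive contraction and `k'` is a self-adjoint nice unit for it. -/
structure IsPair (k k' : A) : Prop where
  nonneg : 0 ≤ k
  le_one : k ≤ 1
  sa : star k' = k'
  mul : k' * k = k
  nice : Nice k'

/-- The inner product of the free module `A ^ n`, linear in the second variable. -/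
noncomputable def ip {n : ℕ} (v w : Fin n → A) : A := ∑ l, star (v l) * w l

/-- The `i`-th column of a matrix. -/
def col {n q : ℕ} (X : Fin n → Fin q → A) (i : Fin q) : Fin n → A := fun l => X l i

/-- The column `X C^*`, where `C` is a row. -/
noncomputable def app {n q : ℕ} (X : Fin n → Fin q → A) (C : Fin q → A) : Fin n → A :=
  fun l => ∑ i, X l i * star (C i)

/-- A contractive right module map from `A ^ n` to `A ^ p`. -/
structure IsContr {n p : ℕ} (T : (Fin n → A) → (Fin p → A)) : Prop where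
  map_add : ∀ v w, T (v + w) = T v + T w
  map_mul : ∀ (v : Fin n → A) (a : A), T (fun l => v l * a) = fun l => T v l * a
  le : ∀ v, ip (T v) (T v) ≤ ip v v

end

section
variable (A : Type u) [CStarAlgebra A] [PartialOrder A] [StarOrderedRing A]

/-- Positivity of the off-diagonal `2 × 2` Toeplitz data. -/
def ToepDiag : Prop :=
  ∀ (e b x w : A) (a : ℤ → A), 0 ≤ e → 0 ≤ b → e * b = 0 → e * x = x → x * e = 0 → e * w = w →
    w * e = 0 → star x * x ≤ b * b → star w * w ≤ b * b → a 0 = e * e + b * b →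
    a 1 = x + star w → a (-1) = star x + w → 0 ≤ toep a 2

/-- Lemma P. -/
def LemP : Prop :=
  ∀ z s w : A, z * z = 0 → ‖z‖ ≤ 1 → 0 ≤ s → star z * z * s = s → star w * w ≤ s * s →
    ∃ v : A, ‖v‖ ≤ 1 ∧ v * s = w

/-- The final segment of a positive element used in the unit decomposition. -/
noncomputable def tail {A : Type u} [CStarAlgebra A] (δ : ℝ) (p : A) : A :=
  cfc (fun t : ℝ => max (t - δ) 0) p

/-- Existence of pairs with `k` a left unit of `tail δ (z^* z)`. -/
def PairStmt : Prop :=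
  ∀ (z : A) (δ : ℝ), z * z = 0 → 0 < δ →
    ∃ k k' : A, IsPair k k' ∧ k * tail δ (star z * z) = tail δ (star z * z)

/-- Unit decomposition. -/
def UnitStmt : Prop :=
  ∀ (m : ℕ) (b z c : Fin m → A), ∑ i, b i * z i * c i = 1 →
    ∃ (δ : ℝ) (c' : Fin m → A), 0 < δ ∧ ∑ i, star (c' i) * c' i = 1 ∧
      ∀ i, ∃ d, c' i = tail δ (star (z i) * z i) * d

/-- Columns. -/
def ColStmt : Prop :=
  ∀ (n : ℕ) (k h c : A) (x : Fin n → A), Nice k → 0 ≤ h → h * k = h → 0 ≤ c →
    (∀ i, x i * k = x i) → ip x x ≤ h * c * h →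
    ∃ u : Fin n → A, (∀ i, x i = u i * h) ∧ ip u u ≤ c

/-- Separation of orthogonal positive elements. -/
def SawStmt : Prop :=
  ∀ k h g : A, Nice k → 0 ≤ h → 0 ≤ g → h * k = h → g * k = g → h * g = 0 →
    ∃ e : A, 0 ≤ e ∧ e ≤ 1 ∧ e * h = h ∧ e * g = 0

/-- The defect matrix `(1 - u u^*)^(1/2)` of a column `u`. -/
def DefectStmt : Prop :=
  ∀ (n : ℕ) (u : Fin n → A), ip u u ≤ 1 →
    ∃ D : Fin n → Fin n → A, (∀ i j, star (D i j) = D j i) ∧
      (∀ i j, ∑ l, D i l * D l j = (if i = j then 1 else 0) - u i * star (u j)) ∧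
      ∀ h : A, ip u u * h = h → ∀ i, ∑ l, D i l * (u l * h) = 0

/-- One step of the elimination. -/
def ElimStmt : Prop :=
  ∀ (n n' q : ℕ) (k k' : A) (C : Fin q → A) (X : Fin n → Fin q → A) (W : Fin n' → Fin q → A),
    IsPair k k' → (∀ i, k * C i = C i) →
    (∀ i j, ip (col X i) (col X j) = ip (col W i) (col W j)) →
    ∃ (X₁ : Fin (n + 1) → Fin q → A) (W₁ : Fin (n' + 1) → Fin q → A),
      (∀ i j, ip (col X₁ i) (col X₁ j) = ip (col W₁ i) (col W₁ j)) ∧
      app X₁ C = 0 ∧
      (∀ C' : Fin q → A, app X C' = 0 → app X₁ C' = 0) ∧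
      ((∃ T : (Fin (n + 1) → A) → (Fin (n' + 1) → A), IsContr T ∧
        ∀ i, T (col X₁ i) = col W₁ i) →
        ∃ T : (Fin n → A) → (Fin n' → A), IsContr T ∧ ∀ i, T (col X i) = col W i)

/-- The factorisation theorem for matrices with a frame. -/
def MainStmt : Prop :=
  ∀ (m n n' q : ℕ) (k k' : Fin m → A) (C : Fin m → Fin q → A) (X : Fin n → Fin q → A)
    (W : Fin n' → Fin q → A),
    (∀ j, IsPair (k j) (k' j)) → (∀ j i, k j * C j i = C j i) →
    (∀ i i', ∑ j, star (C j i) * C j i' = if i = i' then 1 else 0) →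
    (∀ i j, ip (col X i) (col X j) = ip (col W i) (col W j)) →
    ∃ T : (Fin n → A) → (Fin n' → A), IsContr T ∧ ∀ i, T (col X i) = col W i

/-- The algebra has a frame. -/
def HasFrame : Prop :=
  ∃ (m : ℕ) (k k' c : Fin m → A), (∀ j, IsPair (k j) (k' j)) ∧ (∀ j, k j * c j = c j) ∧
    ∑ j, star (c j) * c j = 1

/-- The matrix factorisation theorem for algebras with a frame. -/
def MatStmt : Prop :=
  ∀ (n n' q : ℕ) (X : Fin n → Fin q → A) (W : Fin n' → Fin q → A),
    (∀ i j, ip (col X i) (col X j) = ip (col W i) (col W j)) →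
    ∃ T : (Fin n → A) → (Fin n' → A), IsContr T ∧ ∀ i, T (col X i) = col W i

end

end Pool.Agent.Work.MP_3f690c_an.T3
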