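import Pool.Agent.Work.MP_3f690c_an.T3.Defs

/-!
# No characters implies that the square-zero elements generate the algebra as an ideal
-/

open scoped ComplexOrder

namespace Pool.Agent.Work.MP_3f690c_an.T3

universe u

variable {A : Type u} [CStarAlgebra A] [PartialOrder A] [StarOrderedRing A]

namespace CharAux

omit [PartialOrder A] [StarOrderedRing A] in
theorem mul_mem_left (y : A) {x : A} (hx : x ∈ sqIdeal A) : y * x ∈ sqIdeal A := by
  unfold sqIdeal at hx ⊢
  induction hx using Submodule.span_induction with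
  | mem x hx =>
    obtain ⟨b, z, c, hz, rfl⟩ := hx
    exact Submodule.subset_span ⟨y * b, z, c, hz, by simp only [mul_assoc]⟩
  | zero => rw [mul_zero]; exact Submodule.zero_mem _
  | add x y' _ _ hx hy => rw [mul_add]; exact Submodule.add_mem _ hx hy
  | smul r x _ hx => rw [mul_smul_comm]; exact Submodule.smul_mem _ _ hx

omit [PartialOrder A] [StarOrderedRing A] in
theorem mul_mem_right (y : A) {x : A} (hx : x ∈ sqIdeal A) : x * y ∈ sqIdeal A := by
  unfold sqIdeal at hx ⊢
  induction hx using Submodule.span_induction with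
  | mem x hx =>
    obtain ⟨b, z, c, hz, rfl⟩ := hx
    exact Submodule.subset_span ⟨b, z, c * y, hz, by simp only [mul_assoc]⟩
  | zero => rw [zero_mul]; exact Submodule.zero_mem _
  | add x y' _ _ hx hy => rw [add_mul]; exact Submodule.add_mem _ hx hy
  | smul r x _ hx => rw [smul_mul_assoc]; exact Submodule.smul_mem _ _ hx

omit [PartialOrder A] [StarOrderedRing A] in
theorem exists_sum {x : A} (hx : x ∈ sqIdeal A) :
    ∃ (m : ℕ) (b z c : Fin m → A), (∀ i, z i * z i = 0) ∧ ∑ i, b i * z i * c i = x := by
  unfold sqIdeal at hx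
  obtain ⟨m, f, g, hfg⟩ := Submodule.mem_span_set'.1 hx
  choose b z c hz he using fun i => (g i).2
  refine ⟨m, fun i => f i • b i, z, c, hz, ?_⟩
  rw [← hfg]
  refine Finset.sum_congr rfl fun i _ => ?_
  rw [he i, smul_mul_assoc, smul_mul_assoc]

omit [PartialOrder A] [StarOrderedRing A] in
theorem closure_mul_left (y : A) {x : A} (hx : x ∈ (sqIdeal A).topologicalClosure) :
    y * x ∈ (sqIdeal A).topologicalClosure := by
  rw [← SetLike.mem_coe, Submodule.topologicalClosure_coe] at hx ⊢
  exact map_mem_closure (continuous_const_mul y) hx fun a ha => mul_mem_left y ha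

omit [PartialOrder A] [StarOrderedRing A] in
theorem closure_mul_right (y : A) {x : A} (hx : x ∈ (sqIdeal A).topologicalClosure) :
    x * y ∈ (sqIdeal A).topologicalClosure := by
  rw [← SetLike.mem_coe, Submodule.topologicalClosure_coe] at hx ⊢
  exact map_mem_closure (f := fun a => a * y) (continuous_mul_const y) hx
    fun a ha => mul_mem_right y ha

omit [PartialOrder A] [StarOrderedRing A] in
theorem full_of_one_mem (h : (1 : A) ∈ (sqIdeal A).topologicalClosure) : SqZeroFull A := by
  rw [← SetLike.mem_coe, Submodule.topologicalClosure_coe, Metric.mem_closure_iff] at h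
  obtain ⟨j, hj, hd⟩ := h 1 one_pos
  rw [dist_eq_norm] at hd
  have hu := (Units.oneSub (1 - j) hd).mul_inv
  rw [Units.val_oneSub, sub_sub_cancel] at hu
  have h1 : (1 : A) ∈ sqIdeal A := by
    rw [← hu]
    exact mul_mem_right _ hj
  exact exists_sum h1

variable (A) in
/-- the closed ideal generated by the square-zero elements -/
noncomputable def KI : Ideal A where
  carrier := ((sqIdeal A).topologicalClosure : Set A)
  add_mem' := fun ha hb => (sqIdeal A).topologicalClosure.add_mem ha hb
  zero_mem' := (sqIdeal A).topologicalClosure.zero_mem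
  smul_mem' := fun y _ hx => closure_mul_left y hx

omit [PartialOrder A] [StarOrderedRing A] in
theorem mem_KI {x : A} : x ∈ KI A ↔ x ∈ (sqIdeal A).topologicalClosure := Iff.rfl

instance : (KI A).IsTwoSided := ⟨fun {_} y hx => closure_mul_right y hx⟩

instance : IsClosed (KI A : Set A) := Submodule.isClosed_topologicalClosure (sqIdeal A)

omit [PartialOrder A] [StarOrderedRing A] in
theorem nmul (x y : A ⧸ KI A) : ‖x * y‖ ≤ ‖x‖ * ‖y‖ := by
  refine le_of_forall_pos_le_add fun ε hε => ?_
  have := ((Metric.nhds_basis_ball.prod_nhds Metric.nhds_basis_ball).tendsto_iff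
    Metric.nhds_basis_ball).mp (continuous_mul.tendsto (‖x‖, ‖y‖)) ε hε
  simp only [Set.mem_prod, Metric.mem_ball, and_imp, Prod.forall, Prod.exists] at this
  rcases this with ⟨ε₁, ε₂, ⟨h₁, h₂⟩, h⟩
  obtain ⟨a, rfl, ha⟩ := Submodule.Quotient.norm_mk_lt x h₁
  obtain ⟨b, rfl, hb⟩ := Submodule.Quotient.norm_mk_lt y h₂
  simp only [dist, abs_sub_lt_iff] at h
  specialize h ‖a‖ ‖b‖ ⟨by linarith, by linarith [Submodule.Quotient.norm_mk_le (KI A) a]⟩
    ⟨by linarith, by linarith [Submodule.Quotient.norm_mk_le (KI A) b]⟩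
  calc
    _ ≤ ‖a‖ * ‖b‖ := (Submodule.Quotient.norm_mk_le (KI A) (a * b)).trans (norm_mul_le a b)
    _ ≤ _ := (sub_lt_iff_lt_add'.mp h.1).le

/-- the quotient is a commutative Banach algebra -/
@[reducible] noncomputable def ncr
    (h : ∀ a c : A, a * c - c * a ∈ (sqIdeal A).topologicalClosure) :
    NormedCommRing (A ⧸ KI A) :=
  { Ideal.Quotient.ring (KI A), Submodule.Quotient.normedAddCommGroup (KI A) with
    mul_comm := by
      intro x y
      obtain ⟨a, rfl⟩ := Ideal.Quotient.mk_surjective x
      obtain ⟨b, rfl⟩ := Ideal.Quotient.mk_surjective y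
      rw [← map_mul, ← map_mul, Ideal.Quotient.eq]
      exact h a b
    norm_mul_le := nmul }

end CharAux

open CharAux in
omit [PartialOrder A] [StarOrderedRing A] in
theorem sqZeroFull_of_comm (h : ∀ a c : A, a * c - c * a ∈ (sqIdeal A).topologicalClosure)
    (hA : IsEmpty (WeakDual.characterSpace ℂ A)) : SqZeroFull A := by
  by_cases h1 : (1 : A) ∈ (sqIdeal A).topologicalClosure
  · exact full_of_one_mem h1
  · exfalso
    let _ : NormedCommRing (A ⧸ KI A) := ncr h
    let _ : NormedAlgebra ℂ (A ⧸ KI A) :=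
      { Submodule.Quotient.normedSpace (KI A) ℂ, Ideal.Quotient.algebra ℂ with }
    have : Nontrivial (A ⧸ KI A) := Ideal.Quotient.nontrivial_iff.2 (by
      intro ht
      exact h1 (by
        have : (1 : A) ∈ KI A := by rw [ht]; trivial
        exact this))
    have : CompleteSpace (A ⧸ KI A) := Submodule.Quotient.completeSpace (KI A)
    obtain ⟨φ⟩ : Nonempty (WeakDual.characterSpace ℂ (A ⧸ KI A)) := inferInstance
    exact hA.elim (WeakDual.CharacterSpace.equivAlgHom.symm
      ((WeakDual.CharacterSpace.equivAlgHom φ).comp (Ideal.Quotient.mkₐ ℂ (KI A))))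

end Pool.Agent.Work.MP_3f690c_an.T3
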