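import Pool.Agent.Work.MP_3f690c_an.T3.Defs

/-!
# Columns
-/

open scoped ComplexOrder

namespace Pool.Agent.Work.MP_3f690c_an.T3

universe u

variable {A : Type u} [CStarAlgebra A] [PartialOrder A] [StarOrderedRing A]

namespace XCOL

theorem ip_nonneg {n : ℕ} (x : Fin n → A) : 0 ≤ ip x x :=
  Finset.sum_nonneg fun i _ => star_mul_self_nonneg (x i)

theorem ip_succ {n : ℕ} (x : Fin (n + 1) → A) :
    ip x x = star (x 0) * x 0 + ip (fun i : Fin n => x i.succ) (fun i : Fin n => x i.succ) :=
  Fin.sum_univ_succ _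

theorem star_mul_le_one {v : A} (hv : ‖v‖ ≤ 1) : star v * v ≤ 1 := by
  rw [← CStarAlgebra.norm_le_one_iff_of_nonneg _ (star_mul_self_nonneg v),
    CStarRing.norm_star_mul_self]
  exact mul_le_one₀ hv (norm_nonneg v) hv

end XCOL

open XCOL in
theorem colStmt : ColStmt A := by
  intro n
  induction n with
  | zero =>
    intro k h c x _ _ _ hc _ _
    refine ⟨fun i => i.elim0, fun i => i.elim0, ?_⟩
    have h0 : ip (fun i : Fin 0 => (i.elim0 : A)) (fun i => i.elim0) = 0 := Fin.sum_univ_zero _
    rw [h0]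
    exact hc
  | succ n ih =>
    intro k h c x hk hh hhk hc hxk hx
    have hsh : star h = h := (IsSelfAdjoint.of_nonneg hh).star_eq
    have hsplit := ip_succ x
    -- the square root
    obtain ⟨t, ht0, htt⟩ : ∃ t : A, 0 ≤ t ∧ t * t = c :=
      ⟨CFC.sqrt c, CFC.sqrt_nonneg c, CFC.sqrt_mul_sqrt_self c hc⟩
    have hst : star t = t := (IsSelfAdjoint.of_nonneg ht0).star_eq
    have e1 : star (t * h) * (t * h) = h * c * h := by
      rw [star_mul, hst, hsh, ← htt]
      simp only [mul_assoc]
    have e2 : star (x 0) * x 0 ≤ star (t * h) * (t * h) := by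
      rw [e1]
      refine le_trans ?_ hx
      rw [hsplit]
      exact le_add_of_nonneg_right (ip_nonneg _)
    obtain ⟨v, hv, hv2⟩ := hk (t * h) (x 0) (by rw [mul_assoc, hhk]) e2
    have e3 : x 0 = (v * t) * h := by rw [hv2, mul_assoc]
    have e4 : star (v * t) * (v * t) ≤ c := by
      have h1 := star_left_conjugate_le_conjugate (star_mul_le_one hv) t
      rw [mul_one, hst, htt] at h1
      refine le_of_eq_of_le ?_ h1
      rw [star_mul, hst]
      simp only [mul_assoc]
    have e5 : 0 ≤ c - star (v * t) * (v * t) := sub_nonneg.2 e4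
    have e6 : star (x 0) * x 0 = h * (star (v * t) * (v * t)) * h := by
      rw [e3, star_mul, hsh]
      simp only [mul_assoc]
    have e7 : ip (fun i : Fin n => x i.succ) (fun i : Fin n => x i.succ) ≤
        h * (c - star (v * t) * (v * t)) * h := by
      rw [mul_sub, sub_mul, ← e6, le_sub_iff_add_le, add_comm, ← hsplit]
      exact hx
    obtain ⟨u', hu1, hu2⟩ := ih k h (c - star (v * t) * (v * t)) (fun i => x i.succ) hk hh hhk e5
      (fun i => hxk i.succ) e7
    refine ⟨Fin.cons (v * t) u', fun i => ?_, ?_⟩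
    · refine Fin.cases ?_ (fun i => ?_) i
      · exact e3
      · exact hu1 i
    · rw [ip_succ]
      have h1 : ip (fun i : Fin n => (Fin.cons (v * t) u' : Fin (n + 1) → A) i.succ)
          (fun i : Fin n => (Fin.cons (v * t) u' : Fin (n + 1) → A) i.succ) = ip u' u' := rfl
      have h2 : (Fin.cons (v * t) u' : Fin (n + 1) → A) 0 = v * t := rfl
      rw [h1, h2, add_comm, ← le_sub_iff_add_le]
      exact hu2

end Pool.Agent.Work.MP_3f690c_an.T3
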