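import Pool.Agent.Work.MP_3f690c_an.T3.Defs
import Pool.Agent.Work.MP_3f690c_an.Center

/-!
# Commutators lie in the closed ideal of square-zero elements
-/

open scoped ComplexOrder

namespace Pool.Agent.Work.MP_3f690c_an.T3

universe u

namespace Cm

variable {A : Type u} [CStarAlgebra A] [PartialOrder A] [StarOrderedRing A]

open Pool.Agent.Work.MP_3f690c_an.Ctr (kk kk_mul kk_mul' kk_star kk_norm kk_sum norm_sum_orth)

omit [PartialOrder A] [StarOrderedRing A] in
lemma sq_mem {z : A} (h : z * z = 0) : z ∈ sqIdeal A :=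
  Submodule.subset_span ⟨1, z, 1, h, by simp⟩

/-- the differences of the step functions -/
noncomputable def pp (c : A) (d : ℝ) (s : ℕ) : A := kk c d s - kk c d (s + 1)

lemma pp_star (c : A) (d : ℝ) (s : ℕ) : star (pp c d s) = pp c d s := by
  unfold pp
  rw [star_sub, kk_star, kk_star]

lemma pp_norm (c : A) (d : ℝ) (s : ℕ) : ‖pp c d s‖ ≤ 2 := by
  unfold pp
  refine (norm_sub_le _ _).trans ?_
  have h1 := kk_norm c d s
  have h2 := kk_norm c d (s + 1)
  linarith

lemma kk_pp (c : A) (d : ℝ) {s m : ℕ} (h : s + 2 ≤ m) : kk c d m * pp c d s = 0 := by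
  unfold pp
  rw [mul_sub, kk_mul' c d (by omega), kk_mul' c d (by omega), sub_self]

lemma pp_kk (c : A) (d : ℝ) {s m : ℕ} (h : s + 2 ≤ m) : pp c d s * kk c d m = 0 := by
  unfold pp
  rw [sub_mul, kk_mul c d (by omega), kk_mul c d (by omega), sub_self]

lemma pp_pp (c : A) (d : ℝ) {s m : ℕ} (h : s + 2 ≤ m) : pp c d s * pp c d m = 0 := by
  rw [show pp c d m = kk c d m - kk c d (m + 1) from rfl, mul_sub, pp_kk c d h,
    pp_kk c d (by omega), sub_zero]

lemma pp_pp' (c : A) (d : ℝ) {s m : ℕ} (h : s + 2 ≤ m) : pp c d m * pp c d s = 0 := by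
  rw [show pp c d m = kk c d m - kk c d (m + 1) from rfl, sub_mul, kk_pp c d h,
    kk_pp c d (by omega), sub_zero]

lemma step_mem (a c : A) (d : ℝ) (s : ℕ) :
    (a * kk c d (s + 1) - kk c d (s + 1) * a) -
      (pp c d s * a * pp c d (s + 1) - pp c d (s + 1) * a * pp c d s) ∈ sqIdeal A := by
  have e : (a * kk c d (s + 1) - kk c d (s + 1) * a) -
      (pp c d s * a * pp c d (s + 1) - pp c d (s + 1) * a * pp c d s) =
      ((1 - kk c d s) * a * kk c d (s + 1) - kk c d (s + 1) * a * (1 - kk c d s)) +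
        (pp c d s * a * kk c d (s + 2) - kk c d (s + 2) * a * pp c d s) := by
    unfold pp
    noncomm_ring
  rw [e]
  have h1 : kk c d (s + 1) * (1 - kk c d s) = 0 := by
    rw [mul_sub, mul_one, kk_mul' c d (by omega), sub_self]
  have h2 : (1 - kk c d s) * kk c d (s + 1) = 0 := by
    rw [sub_mul, one_mul, kk_mul c d (by omega), sub_self]
  have h3 : kk c d (s + 2) * pp c d s = 0 := kk_pp c d (by omega)
  have h4 : pp c d s * kk c d (s + 2) = 0 := pp_kk c d (by omega)
  refine Submodule.add_mem _ (Submodule.sub_mem _ (sq_mem ?_) (sq_mem ?_))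
    (Submodule.sub_mem _ (sq_mem ?_) (sq_mem ?_))
  · calc (1 - kk c d s) * a * kk c d (s + 1) * ((1 - kk c d s) * a * kk c d (s + 1))
        = (1 - kk c d s) * a * (kk c d (s + 1) * (1 - kk c d s)) * (a * kk c d (s + 1)) := by
          simp only [mul_assoc]
      _ = 0 := by rw [h1]; simp
  · calc kk c d (s + 1) * a * (1 - kk c d s) * (kk c d (s + 1) * a * (1 - kk c d s))
        = kk c d (s + 1) * a * ((1 - kk c d s) * kk c d (s + 1)) * (a * (1 - kk c d s)) := by
          simp only [mul_assoc]
      _ = 0 := by rw [h2]; simp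
  · calc pp c d s * a * kk c d (s + 2) * (pp c d s * a * kk c d (s + 2))
        = pp c d s * a * (kk c d (s + 2) * pp c d s) * (a * kk c d (s + 2)) := by
          simp only [mul_assoc]
      _ = 0 := by rw [h3]; simp
  · calc kk c d (s + 2) * a * pp c d s * (kk c d (s + 2) * a * pp c d s)
        = kk c d (s + 2) * a * (pp c d s * kk c d (s + 2)) * (a * pp c d s) := by
          simp only [mul_assoc]
      _ = 0 := by rw [h4]; simp

/-- the orthogonal pieces -/
noncomputable def vv (a c : A) (d : ℝ) (s : ℕ) : A := pp c d s * a * pp c d (s + 1)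

lemma vv_norm (a c : A) (d : ℝ) (s : ℕ) : ‖vv a c d s‖ ≤ 4 * ‖a‖ := by
  unfold vv
  have h1 := pp_norm c d s
  have h2 := pp_norm c d (s + 1)
  calc ‖pp c d s * a * pp c d (s + 1)‖ ≤ ‖pp c d s‖ * ‖a‖ * ‖pp c d (s + 1)‖ :=
        (norm_mul_le _ _).trans (by gcongr; exact norm_mul_le _ _)
    _ ≤ 2 * ‖a‖ * 2 := by gcongr
    _ = 4 * ‖a‖ := by ring

lemma vv_orth1 (a c : A) (d : ℝ) {s m : ℕ} (h : s + 2 ≤ m) :
    star (vv a c d s) * vv a c d m = 0 := by
  unfold vv
  calc star (pp c d s * a * pp c d (s + 1)) * (pp c d m * a * pp c d (m + 1))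
      = star (pp c d (s + 1)) * star a * (star (pp c d s) * pp c d m) * (a * pp c d (m + 1)) := by
        simp only [star_mul, mul_assoc]
    _ = 0 := by rw [pp_star c d s, pp_pp c d h]; simp

lemma vv_orth2 (a c : A) (d : ℝ) {s m : ℕ} (h : s + 2 ≤ m) :
    vv a c d s * star (vv a c d m) = 0 := by
  unfold vv
  calc pp c d s * a * pp c d (s + 1) * star (pp c d m * a * pp c d (m + 1))
      = pp c d s * a * (pp c d (s + 1) * star (pp c d (m + 1))) * (star a * star (pp c d m)) := by
        simp only [star_mul, mul_assoc]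
    _ = 0 := by rw [pp_star c d (m + 1), pp_pp c d (by omega)]; simp

lemma vv_sum (a c : A) (d : ℝ) (N : ℕ) :
    ‖∑ s ∈ Finset.range N, vv a c d s‖ ≤ 12 * ‖a‖ := by
  have h0 : ∑ s ∈ Finset.range N, vv a c d s =
      ∑ r ∈ Finset.range 3, ∑ s ∈ (Finset.range N).filter (fun s => s % 3 = r), vv a c d s := by
    rw [Finset.sum_fiberwise_of_maps_to]
    intro s _
    rw [Finset.mem_range]
    exact Nat.mod_lt _ (by norm_num)
  rw [h0]
  have h1 : ∀ r ∈ Finset.range 3,
      ‖∑ s ∈ (Finset.range N).filter (fun s => s % 3 = r), vv a c d s‖ ≤ 4 * ‖a‖ := by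
    intro r _
    refine norm_sum_orth _ _ (by positivity) ?_ ?_ fun s _ => vv_norm a c d s
    · intro i hi j hj hij
      rw [Finset.mem_filter] at hi hj
      rcases lt_or_gt_of_ne hij with h | h
      · exact vv_orth1 a c d (by omega)
      · have := vv_orth1 a c d (s := j) (m := i) (by omega)
        have h2 := congrArg star this
        rwa [star_mul, star_star, star_zero] at h2
    · intro i hi j hj hij
      rw [Finset.mem_filter] at hi hj
      rcases lt_or_gt_of_ne hij with h | h
      · exact vv_orth2 a c d (by omega)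
      · have := vv_orth2 a c d (s := j) (m := i) (by omega)
        have h2 := congrArg star this
        rwa [star_mul, star_star, star_zero] at h2
  refine (norm_sum_le_of_le _ h1).trans ?_
  simp
  linarith

lemma comm_nonneg (a : A) {c : A} (hc : 0 ≤ c) :
    a * c - c * a ∈ (sqIdeal A).topologicalClosure := by
  rw [← SetLike.mem_coe, Submodule.topologicalClosure_coe, Metric.mem_closure_iff]
  intro ε hε
  have hd : 0 < ε / (26 * (‖a‖ + 1)) := by positivity
  set d := ε / (26 * (‖a‖ + 1)) with hdef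
  obtain ⟨N, hN⟩ := exists_nat_ge (‖c‖ / d)
  have hN' : ‖c‖ ≤ ((N + 1 : ℕ) : ℝ) * d := by
    have := (div_le_iff₀ hd).mp hN
    push_cast
    nlinarith
  have hs := kk_sum hc hd hN'
  refine ⟨d • ∑ s ∈ Finset.range N, ((a * kk c d (s + 1) - kk c d (s + 1) * a) -
      (pp c d s * a * pp c d (s + 1) - pp c d (s + 1) * a * pp c d s)), ?_, ?_⟩
  · rw [SetLike.mem_coe]
    have h : ∀ y ∈ sqIdeal A, d • y ∈ sqIdeal A := by
      intro y hy
      have := (sqIdeal A).smul_mem ((d : ℝ) : ℂ) hy
      rwa [Complex.coe_smul] at this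
    exact h _ (Submodule.sum_mem _ fun s _ => step_mem a c d s)
  · have h1 : a * c - c * a - d • ∑ s ∈ Finset.range N,
        ((a * kk c d (s + 1) - kk c d (s + 1) * a) -
          (pp c d s * a * pp c d (s + 1) - pp c d (s + 1) * a * pp c d s)) =
        d • ((a * kk c d 0 - kk c d 0 * a) + (∑ s ∈ Finset.range N, vv a c d s -
          star (∑ s ∈ Finset.range N, vv (star a) c d s))) := by
      have hac : a * c - c * a = d • (a * (∑ s ∈ Finset.range (N + 1), kk c d s) -
          (∑ s ∈ Finset.range (N + 1), kk c d s) * a) := by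
        rw [smul_sub, ← mul_smul_comm, ← smul_mul_assoc, hs]
      rw [hac, Finset.sum_range_succ', ← smul_sub]
      congr 1
      rw [mul_add, add_mul, Finset.mul_sum, Finset.sum_mul, star_sum, ← Finset.sum_sub_distrib,
        Finset.sum_sub_distrib, Finset.sum_sub_distrib]
      have h2 : ∑ s ∈ Finset.range N, (vv a c d s - star (vv (star a) c d s)) =
          ∑ s ∈ Finset.range N,
            (pp c d s * a * pp c d (s + 1) - pp c d (s + 1) * a * pp c d s) := by
        refine Finset.sum_congr rfl fun s _ => ?_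
        unfold vv
        simp only [star_mul, star_star, pp_star, mul_assoc]
      rw [h2]
      abel
    rw [dist_eq_norm, h1, norm_smul, Real.norm_of_nonneg hd.le]
    have h2 := vv_sum a c d N
    have h3 := vv_sum (star a) c d N
    rw [norm_star] at h3
    have h4 : ‖a * kk c d 0 - kk c d 0 * a‖ ≤ 2 * ‖a‖ := by
      refine (norm_sub_le _ _).trans ?_
      have h5 := kk_norm c d 0
      have h6 : ‖a * kk c d 0‖ ≤ ‖a‖ * 1 := (norm_mul_le _ _).trans (by gcongr)
      have h7 : ‖kk c d 0 * a‖ ≤ 1 * ‖a‖ := (norm_mul_le _ _).trans (by gcongr)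
      linarith
    have h5 : ‖(a * kk c d 0 - kk c d 0 * a) + (∑ s ∈ Finset.range N, vv a c d s -
        star (∑ s ∈ Finset.range N, vv (star a) c d s))‖ ≤ 26 * ‖a‖ := by
      refine (norm_add_le _ _).trans ?_
      have h6 := norm_sub_le (∑ s ∈ Finset.range N, vv a c d s)
        (star (∑ s ∈ Finset.range N, vv (star a) c d s))
      rw [norm_star] at h6
      linarith
    calc d * _ ≤ d * (26 * ‖a‖) := by gcongr
      _ < d * (26 * (‖a‖ + 1)) := by gcongr; linarith
      _ = ε := by rw [hdef]; field_simp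

end Cm

variable {A : Type u} [CStarAlgebra A] [PartialOrder A] [StarOrderedRing A]

theorem comm_mem (a c : A) : a * c - c * a ∈ (sqIdeal A).topologicalClosure := by
  have hb : c ∈ Submodule.span ℂ {a : A | 0 ≤ a} := by
    rw [CStarAlgebra.span_nonneg]; trivial
  induction hb using Submodule.span_induction with
  | mem x hx => exact Cm.comm_nonneg a hx
  | zero => simp
  | add x y _ _ hx hy =>
    have : a * (x + y) - (x + y) * a = (a * x - x * a) + (a * y - y * a) := by noncomm_ring
    rw [this]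
    exact Submodule.add_mem _ hx hy
  | smul z x _ hx =>
    have : a * (z • x) - (z • x) * a = z • (a * x - x * a) := by
      rw [mul_smul_comm, smul_mul_assoc, smul_sub]
    rw [this]
    exact Submodule.smul_mem _ _ hx

end Pool.Agent.Work.MP_3f690c_an.T3
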