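import Pool.Agent.Work.MP_3f690c_an.T3.Defs

/-! MP_3f690c_an, block T3, item DEF: the defect matrix of a column. -/

set_option autoImplicit false

open scoped ComplexOrder

namespace Pool.Agent.Work.MP_3f690c_an.T3

universe u

variable {A : Type u} [CStarAlgebra A] [PartialOrder A] [StarOrderedRing A]

namespace DefAux

theorem exists_q (c : A) (h1 : c ≤ 1) :
    ∃ q : A, star q = q ∧ q * c * q = 2 * q - 1 ∧ ∀ h : A, c * h = h → q * h = h := by
  have h0 : 0 ≤ 1 - c := sub_nonneg.mpr h1
  obtain ⟨r, hr⟩ : ∃ r : A, r = CFC.sqrt (1 - c) := ⟨_, rfl⟩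
  have hr0 : 0 ≤ r := hr ▸ CFC.sqrt_nonneg (1 - c)
  have hrr : r * r = 1 - c := hr ▸ CFC.sqrt_mul_sqrt_self (1 - c) h0
  have hrs : star r = r := (IsSelfAdjoint.of_nonneg hr0).star_eq
  have hu : IsUnit (1 + r) :=
    CStarAlgebra.isUnit_of_le (1 : A) (le_add_of_nonneg_right hr0)
  obtain ⟨v, hv⟩ := hu
  have e1 : (↑v⁻¹ : A) * (1 + r) = 1 := by rw [← hv]; exact v.inv_mul
  have e2 : (1 + r) * (↑v⁻¹ : A) = 1 := by rw [← hv]; exact v.mul_inv
  obtain ⟨q, hq⟩ : ∃ q : A, q = ↑v⁻¹ := ⟨_, rfl⟩
  rw [← hq] at e1 e2
  have hc : c = (1 - r) * (1 + r) := by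
    have : (1 - r) * (1 + r) = 1 - r * r := by noncomm_ring
    rw [this, hrr]; abel
  refine ⟨q, ?_, ?_, ?_⟩
  · have e3 : star q * (1 + r) = 1 := by
      have := congrArg star e2
      rwa [star_mul, star_add, star_one, hrs] at this
    calc star q = star q * ((1 + r) * q) := by rw [e2, mul_one]
      _ = (star q * (1 + r)) * q := by rw [mul_assoc]
      _ = q := by rw [e3, one_mul]
  · calc q * c * q = q * (1 - r) * ((1 + r) * q) := by rw [hc]; noncomm_ring
      _ = q * (1 - r) := by rw [e2, mul_one]
      _ = 2 * q - q * (1 + r) := by noncomm_ring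
      _ = 2 * q - 1 := by rw [e1]
  · intro h hh
    have h2 : r * h = 0 := by
      rw [← CStarRing.star_mul_self_eq_zero_iff, star_mul, hrs, mul_assoc, ← mul_assoc r r h,
        hrr, sub_mul, hh, one_mul, sub_self, mul_zero]
    calc q * h = q * ((1 + r) * h) := by rw [add_mul, one_mul, h2, add_zero]
      _ = (q * (1 + r)) * h := by rw [mul_assoc]
      _ = h := by rw [e1, one_mul]

end DefAux

theorem defectStmt : DefectStmt A := by
  intro n u hu
  obtain ⟨q, hqs, hqc, hqh⟩ := DefAux.exists_q (ip u u) hu
  refine ⟨fun i j => (if i = j then 1 else 0) - u i * q * star (u j), ?_, ?_, ?_⟩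
  · intro i j
    change star ((if i = j then (1 : A) else 0) - u i * q * star (u j)) =
      (if j = i then 1 else 0) - u j * q * star (u i)
    rw [star_sub, star_mul, star_mul, star_star, hqs, ← mul_assoc]
    by_cases hij : i = j
    · rw [if_pos hij, if_pos hij.symm, star_one]
    · rw [if_neg hij, if_neg (Ne.symm hij), star_zero]
  · intro i j
    have h1 : ∑ l, ((if i = l then (1 : A) else 0) - u i * q * star (u l)) *
        ((if l = j then 1 else 0) - u l * q * star (u j)) =
        (if i = j then 1 else 0) - u i * q * star (u j) - u i * q * star (u j) +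
          u i * (q * ip u u * q) * star (u j) := by
      simp only [sub_mul, mul_sub, Finset.sum_sub_distrib, ite_mul, mul_ite, one_mul, zero_mul,
        mul_one, mul_zero, Finset.sum_ite_eq, Finset.sum_ite_eq', Finset.mem_univ, if_true]
      have h2 : ∑ l, u i * q * star (u l) * (u l * q * star (u j)) =
          u i * (q * ip u u * q) * star (u j) := by
        rw [ip]
        simp only [Finset.mul_sum, Finset.sum_mul]
        apply Finset.sum_congr rfl
        intro l _
        simp only [mul_assoc]
      rw [h2]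
      by_cases hij : i = j
      · simp only [hij, if_true]; abel
      · rw [if_neg hij]; abel
    rw [h1, hqc]
    noncomm_ring
  · intro h hh i
    have h1 : ∑ l, ((if i = l then (1 : A) else 0) - u i * q * star (u l)) * (u l * h) =
        u i * h - u i * (q * (ip u u * h)) := by
      simp only [sub_mul, Finset.sum_sub_distrib, ite_mul, one_mul, zero_mul,
        Finset.sum_ite_eq, Finset.mem_univ, if_true]
      congr 1
      rw [ip]
      simp only [Finset.mul_sum, Finset.sum_mul]
      apply Finset.sum_congr rfl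
      intro l _
      simp only [mul_assoc]
    rw [h1, hh, hqh h hh, sub_self]

end Pool.Agent.Work.MP_3f690c_an.T3
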