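import Pool.Agent.Work.MP_3f690c_an.T3.Defs

/-!
# The matrix factorisation theorem gives the Douglas property
-/

open scoped ComplexOrder

namespace Pool.Agent.Work.MP_3f690c_an.T3

universe u

variable {A : Type u} [CStarAlgebra A] [PartialOrder A] [StarOrderedRing A]

theorem douglas_of_mat (h : MatStmt A) : Douglas A := by
  intro w x hle
  have hd0 : 0 ≤ star x * x - star w * w := sub_nonneg.2 hle
  obtain ⟨d, hd⟩ : ∃ d : A, star d * d = star x * x - star w * w := by
    refine ⟨CFC.sqrt (star x * x - star w * w), ?_⟩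
    have hs : star (CFC.sqrt (star x * x - star w * w)) = CFC.sqrt (star x * x - star w * w) :=
      (IsSelfAdjoint.of_nonneg (CFC.sqrt_nonneg _)).star_eq
    rw [hs, CFC.sqrt_mul_sqrt_self _ hd0]
  obtain ⟨T, hT, hTc⟩ := h 1 2 1 (fun _ _ => x) (fun l _ => ![w, d] l) (by
    intro i j
    simp only [ip, col, Fin.sum_univ_two, Fin.sum_univ_one, Matrix.cons_val_zero,
      Matrix.cons_val_one]
    rw [hd]
    abel)
  have hw : w = T (fun _ => 1) 0 * x := by
    have h1 := hTc 0
    have h2 := hT.map_mul (fun _ => (1 : A)) x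
    have h3 : (fun _ : Fin 1 => (1 : A) * x) = col (fun (_ : Fin 1) (_ : Fin 1) => x) 0 := by
      funext l
      simp [col]
    rw [h3, h1] at h2
    have h4 := congrFun h2 0
    simpa [col] using h4
  refine ⟨T (fun _ => 1) 0, ?_, hw⟩
  have hT1 := hT.le (fun _ => (1 : A))
  have h5 : ip (fun _ : Fin 1 => (1 : A)) (fun _ => 1) = 1 := by
    simp [ip]
  have h6 : star (T (fun _ => 1) 0) * T (fun _ => 1) 0 ≤ ip (T fun _ => (1 : A)) (T fun _ => 1) := by
    simp only [ip, Fin.sum_univ_two]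
    exact le_add_of_nonneg_right (star_mul_self_nonneg _)
  have h7 : star (T (fun _ => 1) 0) * T (fun _ => 1) 0 ≤ 1 := by
    rw [h5] at hT1
    exact h6.trans hT1
  have h8 : ‖star (T (fun _ => 1) 0) * T (fun _ => 1) 0‖ ≤ 1 :=
    (CStarAlgebra.norm_le_one_iff_of_nonneg _ (star_mul_self_nonneg _)).2 h7
  rw [CStarRing.norm_star_mul_self] at h8
  nlinarith [norm_nonneg (T (fun _ => (1 : A)) 0)]

end Pool.Agent.Work.MP_3f690c_an.T3
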