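import Pool.Agent.Work.MP_3f690c_an.T3.Defs

/-!
# One step of the elimination
-/

open scoped ComplexOrder

namespace Pool.Agent.Work.MP_3f690c_an.T3

universe u

namespace ElimAux

section
variable {A : Type u} [CStarAlgebra A] [PartialOrder A] [StarOrderedRing A]

/-- A matrix acting on a column. -/
noncomputable def dop {n : ℕ} (D : Fin n → Fin n → A) (v : Fin n → A) : Fin n → A :=
  fun l => ∑ m, D l m * v m

/-- A column times a scalar from the right. -/
noncomputable def rm {n : ℕ} (v : Fin n → A) (a : A) : Fin n → A := fun l => v l * a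

omit [PartialOrder A] [StarOrderedRing A] in
theorem star_ip {n : ℕ} (v w : Fin n → A) : star (ip v w) = ip w v := by
  simp [ip, star_sum]

theorem ip_self_nonneg {n : ℕ} (v : Fin n → A) : 0 ≤ ip v v :=
  Finset.sum_nonneg fun _ _ => star_mul_self_nonneg _

omit [PartialOrder A] [StarOrderedRing A] in
theorem ip_add_right {n : ℕ} (v w w' : Fin n → A) : ip v (w + w') = ip v w + ip v w' := by
  simp [ip, mul_add, Finset.sum_add_distrib]

omit [PartialOrder A] [StarOrderedRing A] in
theorem ip_sub_right {n : ℕ} (v w w' : Fin n → A) : ip v (w - w') = ip v w - ip v w' := by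
  simp [ip, mul_sub, Finset.sum_sub_distrib]

omit [PartialOrder A] [StarOrderedRing A] in
theorem ip_sub_left {n : ℕ} (v w w' : Fin n → A) : ip (v - w) w' = ip v w' - ip w w' := by
  simp [ip, sub_mul, Finset.sum_sub_distrib]

omit [PartialOrder A] [StarOrderedRing A] in
theorem ip_rm_right {n : ℕ} (v w : Fin n → A) (a : A) : ip v (rm w a) = ip v w * a := by
  simp [ip, rm, Finset.sum_mul, mul_assoc]

omit [PartialOrder A] [StarOrderedRing A] in
theorem ip_rm_left {n : ℕ} (v w : Fin n → A) (a : A) : ip (rm v a) w = star a * ip v w := by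
  simp [ip, rm, Finset.mul_sum, mul_assoc]

omit [PartialOrder A] [StarOrderedRing A] in
theorem ip_cons {n : ℕ} (a b : A) (v w : Fin n → A) :
    ip (Fin.cons a v : Fin (n + 1) → A) (Fin.cons b w) = star a * b + ip v w := by
  simp [ip, Fin.sum_univ_succ]

omit [PartialOrder A] [StarOrderedRing A] in
theorem ip_succ {n : ℕ} (v w : Fin (n + 1) → A) :
    ip v w = star (v 0) * w 0 + ip (fun l : Fin n => v l.succ) (fun l => w l.succ) := by
  simp [ip, Fin.sum_univ_succ]

omit [PartialOrder A] [StarOrderedRing A] in
theorem ip_app {n q : ℕ} (v : Fin n → A) (X : Fin n → Fin q → A) (C : Fin q → A) :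
    ip v (app X C) = ∑ i, ip v (col X i) * star (C i) := by
  simp only [ip, app, col, Finset.mul_sum, Finset.sum_mul]
  rw [Finset.sum_comm]
  simp only [mul_assoc]

omit [PartialOrder A] [StarOrderedRing A] in
theorem app_ip {n q : ℕ} (v : Fin n → A) (X : Fin n → Fin q → A) (C : Fin q → A) :
    ip (app X C) v = ∑ i, C i * ip (col X i) v := by
  rw [← star_ip, ip_app, star_sum]
  simp only [star_mul, star_star, star_ip]

omit [PartialOrder A] [StarOrderedRing A] in
theorem ip_dop {n : ℕ} (D : Fin n → Fin n → A) (hs : ∀ i j, star (D i j) = D j i)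
    (v w : Fin n → A) : ip v (dop D w) = ip (dop D v) w := by
  simp only [ip, dop, Finset.mul_sum, star_sum, Finset.sum_mul, star_mul, hs]
  rw [Finset.sum_comm]
  simp only [mul_assoc]

omit [PartialOrder A] [StarOrderedRing A] in
theorem dop_dop {n : ℕ} (u : Fin n → A) (D : Fin n → Fin n → A)
    (hD : ∀ i j, ∑ l, D i l * D l j = (if i = j then 1 else 0) - u i * star (u j))
    (v : Fin n → A) : dop D (dop D v) = v - rm u (ip u v) := by
  funext i
  have h1 : dop D (dop D v) i = ∑ j, (∑ l, D i l * D l j) * v j := by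
    simp only [dop, Finset.mul_sum, Finset.sum_mul]
    rw [Finset.sum_comm]
    simp only [mul_assoc]
  rw [h1]
  simp only [hD, sub_mul, Finset.sum_sub_distrib, ite_mul, one_mul, zero_mul,
    Finset.sum_ite_eq, Finset.mem_univ, if_true, Pi.sub_apply, rm, ip, Finset.mul_sum, mul_assoc]

omit [PartialOrder A] [StarOrderedRing A] in
theorem ip_dop_dop {n : ℕ} (u : Fin n → A) (D : Fin n → Fin n → A)
    (hs : ∀ i j, star (D i j) = D j i)
    (hD : ∀ i j, ∑ l, D i l * D l j = (if i = j then 1 else 0) - u i * star (u j))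
    (v w : Fin n → A) : ip (dop D v) (dop D w) = ip v w - star (ip u v) * ip u w := by
  rw [← ip_dop D hs, dop_dop u D hD, ip_sub_right, ip_rm_right, star_ip]

omit [PartialOrder A] [StarOrderedRing A] in
theorem dop_add {n : ℕ} (D : Fin n → Fin n → A) (v w : Fin n → A) :
    dop D (v + w) = dop D v + dop D w := by
  funext i
  simp [dop, mul_add, Finset.sum_add_distrib]

omit [PartialOrder A] [StarOrderedRing A] in
theorem dop_rm {n : ℕ} (D : Fin n → Fin n → A) (v : Fin n → A) (a : A) :
    dop D (rm v a) = rm (dop D v) a := by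
  funext i
  simp [dop, rm, Finset.sum_mul, mul_assoc]

omit [PartialOrder A] [StarOrderedRing A] in
/-- `r ^ 2 d = 0` implies `r d = 0`. -/
theorem mul_eq_zero_of_sq {r d : A} (hr : star r = r) (h : r * r * d = 0) : r * d = 0 := by
  have h1 : star (r * d) * (r * d) = 0 := by
    rw [star_mul, hr]
    have : star d * r * (r * d) = star d * (r * r * d) := by simp only [mul_assoc]
    rw [this, h, mul_zero]
  exact CStarRing.star_mul_self_eq_zero_iff _ |>.1 h1

/-- Positive square roots. -/
theorem exists_root {a : A} (ha : 0 ≤ a) : ∃ r : A, 0 ≤ r ∧ star r = r ∧ r * r = a :=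
  ⟨CFC.sqrt a, CFC.sqrt_nonneg a, (IsSelfAdjoint.of_nonneg (CFC.sqrt_nonneg a)).star_eq,
    CFC.sqrt_mul_sqrt_self a ha⟩

/-- The polar decomposition of a column. -/
theorem exists_polar (h1 : ColStmt A) {n : ℕ} {k k' h : A} (x : Fin n → A) (hk : IsPair k k')
    (hx : ∀ l, x l * k = x l) (hh : 0 ≤ h) (hhk : h * k = h) (hxx : ip x x = h * h) :
    ∃ u : Fin n → A, rm u h = x ∧ ip u u ≤ 1 ∧ rm u k' = u ∧ ip u u * h = h := by
  have hks : star k = k := (IsSelfAdjoint.of_nonneg hk.nonneg).star_eq
  have hhs : star h = h := (IsSelfAdjoint.of_nonneg hh).star_eq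
  have hkk' : k * k' = k := by
    have := congrArg star hk.mul
    rwa [star_mul, hks, hk.sa] at this
  have hkh : k * h = h := by
    have := congrArg star hhk
    rwa [star_mul, hks, hhs] at this
  have hhk' : h * k' = h := by
    rw [← hhk, mul_assoc, hkk']
  have hx' : ∀ l, x l * k' = x l := by
    intro l
    rw [← hx l, mul_assoc, hkk']
  obtain ⟨u, hu, hu1⟩ := h1 n k' h 1 x hk.nice hh hhk' zero_le_one hx'
    (by rw [mul_one, hxx])
  have hux : rm (rm u k) h = x := by
    funext l
    simp only [rm, mul_assoc, hkh]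
    exact (hu l).symm
  have hle : ip (rm u k) (rm u k) ≤ 1 := by
    rw [ip_rm_right, ip_rm_left]
    have e1 : star k * ip u u * k ≤ star k * 1 * k := star_left_conjugate_le_conjugate hu1 k
    have e2 : star k * 1 * k ≤ 1 := by
      rw [mul_one, hks]
      have hn : ‖k‖ ≤ 1 := (CStarAlgebra.norm_le_one_iff_of_nonneg k hk.nonneg).2 hk.le_one
      have hk2 : star k * k ≤ 1 := by
        rw [← CStarAlgebra.norm_le_one_iff_of_nonneg _ (star_mul_self_nonneg k),
          CStarRing.norm_star_mul_self]
        exact mul_le_one₀ hn (norm_nonneg _) hn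
      rwa [hks] at hk2
    exact e1.trans e2
  refine ⟨rm u k, hux, hle, ?_, ?_⟩
  · funext l
    simp only [rm, mul_assoc, hkk']
  · obtain ⟨r, _, hrs, hrr⟩ := exists_root (sub_nonneg.2 hle)
    have e3 : h * (r * r) * h = 0 := by
      rw [hrr]
      have : h * (1 - ip (rm u k) (rm u k)) * h = h * h - ip (rm (rm u k) h) (rm (rm u k) h) := by
        rw [ip_rm_right (rm (rm u k) h), ip_rm_left (rm u k), hhs]
        noncomm_ring
      rw [this, hux, hxx, sub_self]
    have e4 : star (r * h) * (r * h) = 0 := by
      rw [star_mul, hrs, hhs]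
      calc h * r * (r * h) = h * (r * r) * h := by simp only [mul_assoc]
        _ = 0 := e3
    have e5 : r * h = 0 := CStarRing.star_mul_self_eq_zero_iff _ |>.1 e4
    have e6 : (1 - ip (rm u k) (rm u k)) * h = 0 := by
      rw [← hrr, mul_assoc, e5, mul_zero]
    rw [sub_mul, one_mul, sub_eq_zero] at e6
    exact e6.symm

end

end ElimAux

open ElimAux

section
variable {A : Type u} [CStarAlgebra A] [PartialOrder A] [StarOrderedRing A]

theorem elimStmt (h1 : ColStmt A) (h2 : SawStmt A) (h3 : DefectStmt A) : ElimStmt A := by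
  intro n n' q k k' C X W hk hC hG
  have hks : star k = k := (IsSelfAdjoint.of_nonneg hk.nonneg).star_eq
  have hkk' : k * k' = k := by
    have := congrArg star hk.mul
    rwa [star_mul, hks, hk.sa] at this
  have hCs : ∀ i, star (C i) * k = star (C i) := by
    intro i
    have := congrArg star (hC i)
    rwa [star_mul, hks] at this
  have hxk : ∀ l, app X C l * k = app X C l := by
    intro l
    simp only [app, Finset.sum_mul, mul_assoc, hCs]
  have hwk : ∀ l, app W C l * k = app W C l := by
    intro l
    simp only [app, Finset.sum_mul, mul_assoc, hCs]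
  obtain ⟨h, hh0, hhs, hhh⟩ := exists_root (ip_self_nonneg (app X C))
  have hwx : ip (app W C) (app W C) = ip (app X C) (app X C) := by
    simp only [ip_app, app_ip, hG]
  have hhk : h * k = h := by
    have e1 : h * h * (1 - k) = 0 := by
      rw [hhh, mul_sub, mul_one, ← ip_rm_right]
      have : rm (app X C) k = app X C := funext hxk
      rw [this, sub_self]
    have e2 := mul_eq_zero_of_sq hhs e1
    rw [mul_sub, mul_one, sub_eq_zero] at e2
    exact e2.symm
  have hhk' : h * k' = h := by
    rw [← hhk, mul_assoc, hkk']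
  obtain ⟨u, hux, hu1, huk, huh⟩ := exists_polar h1 (app X C) hk hxk hh0 hhk hhh.symm
  obtain ⟨u', hux', hu1', huk', huh'⟩ :=
    exists_polar h1 (app W C) hk hwk hh0 hhk (hwx.trans hhh.symm)
  have hKu : ∀ (v : Fin n → A), k' * ip u v = ip u v := by
    intro v
    rw [← hk.sa, ← ip_rm_left, huk]
  have hKu' : ∀ (v : Fin n' → A), k' * ip u' v = ip u' v := by
    intro v
    rw [← hk.sa, ← ip_rm_left, huk']
  have hhK : ∀ i, h * ip u (col X i) = h * ip u' (col W i) := by
    intro i
    have e1 : h * ip u (col X i) = ip (rm u h) (col X i) := by rw [ip_rm_left, hhs]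
    have e2 : h * ip u' (col W i) = ip (rm u' h) (col W i) := by rw [ip_rm_left, hhs]
    rw [e1, e2, hux, hux', app_ip, app_ip]
    simp only [hG]
  -- the element `g`
  have hδ : ∀ i, h * (ip u' (col W i) - ip u (col X i)) = 0 := by
    intro i
    rw [mul_sub, hhK, sub_self]
  have hδk : ∀ i, k' * (ip u' (col W i) - ip u (col X i)) = ip u' (col W i) - ip u (col X i) := by
    intro i
    rw [mul_sub, hKu, hKu']
  obtain ⟨e, he0, he1, heh, heg⟩ := h2 k' h
    (∑ i, (ip u' (col W i) - ip u (col X i)) * star (ip u' (col W i) - ip u (col X i))) hk.nice hh0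
    (Finset.sum_nonneg fun _ _ => mul_star_self_nonneg _) hhk'
    (by
      rw [Finset.sum_mul]
      refine Finset.sum_congr rfl fun i _ => ?_
      have e1 := congrArg star (hδk i)
      rw [star_mul, hk.sa] at e1
      rw [mul_assoc, e1])
    (by
      rw [Finset.mul_sum]
      refine Finset.sum_eq_zero fun i _ => ?_
      rw [← mul_assoc, hδ, zero_mul])
  have hes : star e = e := (IsSelfAdjoint.of_nonneg he0).star_eq
  have heδ : ∀ i, e * (ip u' (col W i) - ip u (col X i)) = 0 := by
    have e1 : ∑ i, (e * (ip u' (col W i) - ip u (col X i))) *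
        star (e * (ip u' (col W i) - ip u (col X i))) = 0 := by
      have e2 : ∑ i, (e * (ip u' (col W i) - ip u (col X i))) *
          star (e * (ip u' (col W i) - ip u (col X i))) =
          (e * ∑ i, (ip u' (col W i) - ip u (col X i)) *
            star (ip u' (col W i) - ip u (col X i))) * e := by
        rw [Finset.mul_sum, Finset.sum_mul]
        refine Finset.sum_congr rfl fun i _ => ?_
        rw [star_mul, hes]
        simp only [mul_assoc]
      rw [e2, heg, zero_mul]
    intro i
    have e3 := (Finset.sum_eq_zero_iff_of_nonneg (fun i _ => mul_star_self_nonneg _)).1 e1 i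
      (Finset.mem_univ i)
    exact CStarRing.mul_star_self_eq_zero_iff _ |>.1 e3
  obtain ⟨p, hp0, hps, hpp⟩ := exists_root he0
  obtain ⟨r, hr0, hrs, hrr⟩ := exists_root (sub_nonneg.2 he1)
  have hrh : r * h = 0 := mul_eq_zero_of_sq hrs (by rw [hrr, sub_mul, one_mul, heh, sub_self])
  have hpK : ∀ i, p * ip u (col X i) = p * ip u' (col W i) := by
    intro i
    have e1 := mul_eq_zero_of_sq hps (by rw [hpp]; exact heδ i)
    rw [mul_sub, sub_eq_zero] at e1
    exact e1.symm
  have hpr : p * p + r * r = 1 := by rw [hpp, hrr]; abel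
  obtain ⟨D, hDs, hDD, hDh⟩ := h3 n u hu1
  obtain ⟨D', hDs', hDD', hDh'⟩ := h3 n' u' hu1'
  -- the isometry
  have hJ : ∀ v w : Fin n → A, star (r * ip u v) * (r * ip u w) + ip (dop D v) (dop D w) =
      ip v w - star (p * ip u v) * (p * ip u w) := by
    intro v w
    rw [ip_dop_dop u D hDs hDD]
    have e1 : star (r * ip u v) * (r * ip u w) = star (ip u v) * (r * r) * ip u w := by
      rw [star_mul, hrs]; simp only [mul_assoc]
    have e2 : star (p * ip u v) * (p * ip u w) = star (ip u v) * (p * p) * ip u w := by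
      rw [star_mul, hps]; simp only [mul_assoc]
    have e3 : star (ip u v) * ip u w =
        star (ip u v) * (p * p) * ip u w + star (ip u v) * (r * r) * ip u w := by
      rw [← add_mul, ← mul_add, hpr, mul_one]
    rw [e1, e2, e3]
    abel
  have hJ' : ∀ v w : Fin n' → A, star (r * ip u' v) * (r * ip u' w) +
      ip (dop D' v) (dop D' w) = ip v w - star (p * ip u' v) * (p * ip u' w) := by
    intro v w
    rw [ip_dop_dop u' D' hDs' hDD']
    have e1 : star (r * ip u' v) * (r * ip u' w) = star (ip u' v) * (r * r) * ip u' w := by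
      rw [star_mul, hrs]; simp only [mul_assoc]
    have e2 : star (p * ip u' v) * (p * ip u' w) = star (ip u' v) * (p * p) * ip u' w := by
      rw [star_mul, hps]; simp only [mul_assoc]
    have e3 : star (ip u' v) * ip u' w =
        star (ip u' v) * (p * p) * ip u' w + star (ip u' v) * (r * r) * ip u' w := by
      rw [← add_mul, ← mul_add, hpr, mul_one]
    rw [e1, e2, e3]
    abel
  have hcolX : ∀ i, col (fun (j : Fin (n + 1)) (i : Fin q) =>
      (Fin.cons (r * ip u (col X i)) (dop D (col X i)) : Fin (n + 1) → A) j) i =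
      Fin.cons (r * ip u (col X i)) (dop D (col X i)) := fun i => rfl
  have hcolW : ∀ i, col (fun (j : Fin (n' + 1)) (i : Fin q) =>
      (Fin.cons (r * ip u' (col W i)) (dop D' (col W i)) : Fin (n' + 1) → A) j) i =
      Fin.cons (r * ip u' (col W i)) (dop D' (col W i)) := fun i => rfl
  have happ : ∀ C' : Fin q → A, app (fun (j : Fin (n + 1)) (i : Fin q) =>
      (Fin.cons (r * ip u (col X i)) (dop D (col X i)) : Fin (n + 1) → A) j) C' =
      Fin.cons (r * ip u (app X C')) (dop D (app X C')) := by
    intro C'
    funext j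
    refine Fin.cases ?_ (fun l => ?_) j
    · simp only [app, Fin.cons_zero]
      rw [ip_app, Finset.mul_sum]
      simp only [mul_assoc]
    · simp only [app, Fin.cons_succ, dop, col, Finset.mul_sum, Finset.sum_mul]
      rw [Finset.sum_comm]
      simp only [mul_assoc]
  refine ⟨fun j i => (Fin.cons (r * ip u (col X i)) (dop D (col X i)) : Fin (n + 1) → A) j,
    fun j i => (Fin.cons (r * ip u' (col W i)) (dop D' (col W i)) : Fin (n' + 1) → A) j,
    ?_, ?_, ?_, ?_⟩
  · intro i j
    rw [hcolX, hcolX, hcolW, hcolW, ip_cons, ip_cons, hJ, hJ', hG, hpK, hpK]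
  · rw [happ]
    funext j
    refine Fin.cases ?_ (fun l => ?_) j
    · rw [Fin.cons_zero, ← hux, ip_rm_right, huh, hrh]
      rfl
    · rw [Fin.cons_succ, ← hux]
      exact hDh h huh l
  · intro C' hC'
    rw [happ, hC']
    funext j
    refine Fin.cases ?_ (fun l => ?_) j
    · simp [ip]
    · simp [dop]
  · rintro ⟨T₁, hT₁, hTX⟩
    have hV : ∀ v w : Fin n → A,
        (Fin.cons (r * ip u (v + w)) (dop D (v + w)) : Fin (n + 1) → A) =
        Fin.cons (r * ip u v) (dop D v) + Fin.cons (r * ip u w) (dop D w) := by
      intro v w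
      funext j
      refine Fin.cases ?_ (fun l => ?_) j
      · simp [ip_add_right, mul_add]
      · simp [dop_add]
    have hM : ∀ (v : Fin n → A) (a : A),
        (Fin.cons (r * ip u (rm v a)) (dop D (rm v a)) : Fin (n + 1) → A) =
        rm (Fin.cons (r * ip u v) (dop D v)) a := by
      intro v a
      funext j
      refine Fin.cases ?_ (fun l => ?_) j
      · simp [ip_rm_right, rm, mul_assoc]
      · rw [Fin.cons_succ, dop_rm]
        simp [rm]
    obtain ⟨T, hT⟩ : ∃ T : (Fin n → A) → (Fin n' → A), ∀ v, T v =
        rm u' (p * (p * ip u v) + r * T₁ (Fin.cons (r * ip u v) (dop D v)) 0) +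
        dop D' (fun l => T₁ (Fin.cons (r * ip u v) (dop D v)) l.succ) := ⟨_, fun _ => rfl⟩
    refine ⟨T, ⟨?_, ?_, ?_⟩, ?_⟩
    · intro v w
      rw [hT, hT, hT, hV, hT₁.map_add]
      funext l
      simp only [Pi.add_apply, rm, dop, ip_add_right, mul_add, Finset.sum_add_distrib]
      abel
    · intro v a
      have hM' := hT₁.map_mul (Fin.cons (r * ip u v) (dop D v)) a
      have hv : (fun l => v l * a) = rm v a := rfl
      rw [hv, hT, hT, hM]
      have hv2 : rm (Fin.cons (r * ip u v) (dop D v) : Fin (n + 1) → A) a =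
        fun l => (Fin.cons (r * ip u v) (dop D v) : Fin (n + 1) → A) l * a := rfl
      rw [hv2, hM']
      funext l
      rw [ip_rm_right]
      simp only [Pi.add_apply, rm, dop, add_mul, mul_add, Finset.sum_mul, mul_assoc]
    · intro v
      obtain ⟨s, hs⟩ : ∃ s, s = ip u v := ⟨_, rfl⟩
      obtain ⟨t, ht⟩ : ∃ t, t = T₁ (Fin.cons (r * ip u v) (dop D v)) := ⟨_, rfl⟩
      obtain ⟨z, hz⟩ : ∃ z, z = T v := ⟨_, rfl⟩
      have hz1 : z = rm u' (p * (p * s) + r * t 0) + dop D' (fun l => t l.succ) := by
        rw [hz, hT, ← ht, ← hs]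
      have e1 : ip z z = star (p * ip u' z) * (p * s) + (star (r * ip u' z) * t 0 +
          ip (dop D' z) (fun l => t l.succ)) := by
        have : ip z z = ip z (rm u' (p * (p * s) + r * t 0) + dop D' (fun l => t l.succ)) := by
          rw [← hz1]
        rw [this, ip_add_right, ip_rm_right, ip_dop D' hDs', star_mul, star_mul, hps, hrs,
          star_ip, mul_add]
        simp only [mul_assoc, add_assoc]
      have e2 : ip z z = star (p * ip u' z) * (p * ip u' z) +
          (star (r * ip u' z) * (r * ip u' z) + ip (dop D' z) (dop D' z)) := by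
        rw [hJ']; abel
      have e3 : ip z z = star (p * s) * (p * ip u' z) + (star (t 0) * (r * ip u' z) +
          ip (fun l => t l.succ) (dop D' z)) := by
        rw [← star_ip, e1]
        simp only [star_add, star_mul, star_star, star_ip, mul_assoc]
      have e4 : 0 ≤ star (p * ip u' z - p * s) * (p * ip u' z - p * s) +
          (star (r * ip u' z - t 0) * (r * ip u' z - t 0) +
          ip (dop D' z - fun l => t l.succ) (dop D' z - fun l => t l.succ)) :=
        add_nonneg (star_mul_self_nonneg _) (add_nonneg (star_mul_self_nonneg _)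
          (ip_self_nonneg _))
      have e5 : star (p * ip u' z - p * s) * (p * ip u' z - p * s) +
          (star (r * ip u' z - t 0) * (r * ip u' z - t 0) +
          ip (dop D' z - fun l => t l.succ) (dop D' z - fun l => t l.succ)) =
          (star (p * ip u' z) * (p * ip u' z) +
          (star (r * ip u' z) * (r * ip u' z) + ip (dop D' z) (dop D' z))) -
          (star (p * ip u' z) * (p * s) + (star (r * ip u' z) * t 0 +
          ip (dop D' z) (fun l => t l.succ))) -
          (star (p * s) * (p * ip u' z) + (star (t 0) * (r * ip u' z) +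
          ip (fun l => t l.succ) (dop D' z))) +
          (star (p * s) * (p * s) + (star (t 0) * t 0 +
          ip (fun l => t l.succ) (fun l => t l.succ))) := by
        rw [ip_sub_left, ip_sub_right, ip_sub_right, star_sub, star_sub]
        generalize star (p * ip u' z) = a1
        generalize star (r * ip u' z) = a2
        generalize star (p * s) = a3
        generalize star (t 0) = a4
        noncomm_ring
      rw [← e1, ← e2, ← e3] at e5
      have e6 : ip z z ≤ star (p * s) * (p * s) + (star (t 0) * t 0 +
          ip (fun l => t l.succ) (fun l => t l.succ)) := by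
        have e7 : ip z z - ip z z - ip z z + (star (p * s) * (p * s) + (star (t 0) * t 0 +
          ip (fun l => t l.succ) (fun l => t l.succ))) = (star (p * s) * (p * s) +
          (star (t 0) * t 0 + ip (fun l => t l.succ) (fun l => t l.succ))) - ip z z := by abel
        rw [e5, e7] at e4
        exact sub_nonneg.1 e4
      have e8 : ip t t ≤ star (r * s) * (r * s) + ip (dop D v) (dop D v) := by
        rw [ht, hs, ← ip_cons]
        exact hT₁.le _
      rw [← hz]
      refine e6.trans ?_
      rw [← ip_succ]
      calc star (p * s) * (p * s) + ip t t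
          ≤ star (p * s) * (p * s) + (star (r * s) * (r * s) + ip (dop D v) (dop D v)) := by
            gcongr
        _ = ip v v := by
            rw [hs, hJ]; abel
    · intro i
      rw [hT, ← hcolX i, hTX, hcolW]
      have e1 : (fun l : Fin n' =>
          (Fin.cons (r * ip u' (col W i)) (dop D' (col W i)) : Fin (n' + 1) → A) l.succ) =
          dop D' (col W i) := by
        funext l
        rw [Fin.cons_succ]
      rw [e1, dop_dop u' D' hDD', Fin.cons_zero, hpK]
      have e2 : p * (p * ip u' (col W i)) + r * (r * ip u' (col W i)) = ip u' (col W i) := by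
        rw [← mul_assoc, ← mul_assoc, ← add_mul, hpr, one_mul]
      rw [e2]
      abel

end

end Pool.Agent.Work.MP_3f690c_an.T3
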