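import Pool.Agent.Work.MP_3f690c_an.T3.Defs

/-!
# Lemma P
-/

open scoped ComplexOrder

namespace Pool.Agent.Work.MP_3f690c_an.T3

universe u

variable {A : Type u} [CStarAlgebra A] [PartialOrder A] [StarOrderedRing A]

namespace LemPAux

/-- An element dominated by zero vanishes. -/
theorem eq_zero_of_le_zero {a : A} (h : star a * a ≤ 0) : a = 0 := by
  have h1 : star a * a = 0 := le_antisymm h (star_mul_self_nonneg a)
  exact (CStarRing.star_mul_self_eq_zero_iff a).1 h1

/-- Domination of functions of `p` acting on an element. -/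
theorem cfc_mul_eq_zero {p a : A} (hp : IsSelfAdjoint p) {f g : ℝ → ℝ} (hf : Continuous f)
    (hg : Continuous g) (C : ℝ) (h : ∀ t, f t * f t ≤ C * (g t * g t))
    (hz : cfc g p * a = 0) : cfc f p * a = 0 := by
  have hfs : star (cfc f p) = cfc f p := (cfc_predicate f p : IsSelfAdjoint _).star_eq
  have hgs : star (cfc g p) = cfc g p := (cfc_predicate g p : IsSelfAdjoint _).star_eq
  apply eq_zero_of_le_zero
  have e1 : star (cfc f p * a) * (cfc f p * a) = star a * cfc (fun t => f t * f t) p * a := by
    rw [cfc_mul f f p hf.continuousOn hf.continuousOn, star_mul, hfs]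
    simp only [mul_assoc]
  have e2 : star a * cfc (fun t => C * (g t * g t)) p * a
      = C • (star (cfc g p * a) * (cfc g p * a)) := by
    rw [cfc_const_mul C (fun t => g t * g t) p (hg.mul hg).continuousOn,
      cfc_mul g g p hg.continuousOn hg.continuousOn, star_mul, hgs]
    simp only [mul_assoc, mul_smul_comm, smul_mul_assoc]
  have e3 : cfc (fun t => f t * f t) p ≤ cfc (fun t => C * (g t * g t)) p :=
    cfc_mono (fun t _ => h t) (hf.mul hf).continuousOn
      (continuous_const.mul (hg.mul hg)).continuousOn
  rw [e1]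
  refine (star_left_conjugate_le_conjugate e3 a).trans ?_
  rw [e2, hz]
  simp

/-- The cut functions. -/
noncomputable def cut (c : ℝ) (t : ℝ) : ℝ := min 1 (max 0 (4 * t - c))

theorem cut_cont (c : ℝ) : Continuous (cut c) := by
  unfold cut
  fun_prop

theorem cut_nonneg (c t : ℝ) : 0 ≤ cut c t := le_min zero_le_one (le_max_left _ _)

theorem cut_le_one (c t : ℝ) : cut c t ≤ 1 := min_le_left _ _

theorem cut_eq_zero {c t : ℝ} (h : 4 * t ≤ c) : cut c t = 0 := by
  unfold cut
  rw [max_eq_left (by linarith), min_eq_right zero_le_one]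

theorem cut_eq_one {c t : ℝ} (h : c + 1 ≤ 4 * t) : cut c t = 1 := by
  unfold cut
  rw [max_eq_right (by linarith), min_eq_left (by linarith)]

theorem cut_mul {c d t : ℝ} (h : d + 1 ≤ c) : cut c t * cut d t = cut c t := by
  rcases le_total (4 * t) c with h1 | h1
  · rw [cut_eq_zero h1, zero_mul]
  · rw [cut_eq_one (c := d) (by linarith), mul_one]

theorem cut_sq_le {c t : ℝ} (hc : 0 ≤ c) : cut c t * cut c t ≤ 16 * (t * t) := by
  rcases le_total (4 * t) c with h1 | h1
  · rw [cut_eq_zero h1]
    nlinarith [mul_self_nonneg t]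
  · have h2 : cut c t ≤ 4 * t := by
      unfold cut
      refine (min_le_right _ _).trans (max_le (by linarith) (by linarith))
    have h3 := cut_nonneg c t
    nlinarith

theorem one_sub_cut_sq_le {c t : ℝ} (hc : c ≤ 3) :
    (1 - cut c t) * (1 - cut c t) ≤ 16 * ((1 - t) * (1 - t)) := by
  rcases le_total (c + 1) (4 * t) with h1 | h1
  · rw [cut_eq_one h1]
    nlinarith [mul_self_nonneg (1 - t)]
  · have h2 : 4 * t - c ≤ cut c t := by
      unfold cut
      exact le_min (by linarith) (le_max_right _ _)
    have h3 := cut_le_one c t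
    nlinarith

end LemPAux

open LemPAux in
/-- Lemma P. -/
theorem lemP (h : PropF A) : LemP A := by
  intro z s w hzz hz hs hps hws
  set p : A := star z * z with hpdef
  have hp0 : 0 ≤ p := star_mul_self_nonneg z
  have hpsa : IsSelfAdjoint p := hp0.isSelfAdjoint
  have hssa : star s = s := hs.isSelfAdjoint.star_eq
  have hpstar : star p = p := hpsa.star_eq
  have hpz : p * z = 0 := by rw [hpdef, mul_assoc, hzz, mul_zero]
  have hsp : s * p = s := by
    have := congrArg star hps
    rwa [star_mul, hssa, hpstar] at this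
  -- the elements
  have c1 := cut_cont 1
  have c2 := cut_cont 2
  have c3 := cut_cont 3
  set k : A := cfc (cut 3) p with hk
  set k' : A := cfc (cut 2) p with hk'
  set k3 : A := cfc (cut 1) p with hk3
  have cr : Continuous (fun t => Real.sqrt (1 - cut 2 t)) := by fun_prop
  have cq : Continuous (fun t => Real.sqrt (cut 2 t)) := by fun_prop
  set r : A := cfc (fun t => Real.sqrt (1 - cut 2 t)) p with hr
  set q : A := cfc (fun t => Real.sqrt (cut 2 t)) p with hq
  have hkstar : star k = k := (cfc_predicate (cut 3) p : IsSelfAdjoint _).star_eq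
  have hk3star : star k3 = k3 := (cfc_predicate (cut 1) p : IsSelfAdjoint _).star_eq
  have hrstar : star r = r := (cfc_predicate _ p : IsSelfAdjoint _).star_eq
  have hqstar : star q = q := (cfc_predicate _ p : IsSelfAdjoint _).star_eq
  have hk0 : 0 ≤ k := cfc_nonneg (fun t _ => cut_nonneg 3 t)
  have hk1 : k ≤ 1 := cfc_le_one _ _ (fun t _ => cut_le_one 3 t)
  have hk30 : 0 ≤ k3 := cfc_nonneg (fun t _ => cut_nonneg 1 t)
  have hkn : ‖k‖ ≤ 1 := (CStarAlgebra.norm_le_one_iff_of_nonneg k hk0).2 hk1
  -- action on `s`
  have hone : ∀ c : ℝ, c ≤ 3 → cfc (cut c) p * s = s := by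
    intro c hc
    have cc := cut_cont c
    have e1 : cfc (fun t => 1 - cut c t) p = 1 - cfc (cut c) p := by
      rw [cfc_sub (fun _ => (1 : ℝ)) (cut c) p continuous_const.continuousOn cc.continuousOn,
        cfc_const_one ℝ p]
    have e2 : cfc (fun t : ℝ => 1 - t) p = 1 - p := by
      rw [cfc_sub (fun _ => (1 : ℝ)) (fun t => t) p continuous_const.continuousOn
        continuous_id.continuousOn, cfc_const_one ℝ p, cfc_id' ℝ p]
    have e3 : cfc (fun t => 1 - cut c t) p * s = 0 := by
      refine cfc_mul_eq_zero hpsa (g := fun t => 1 - t) (by fun_prop) (by fun_prop) 16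
        (fun t => one_sub_cut_sq_le hc) ?_
      rw [e2, sub_mul, one_mul, hps, sub_self]
    rw [e1, sub_mul, one_mul, sub_eq_zero] at e3
    exact e3.symm
  have hzero : ∀ c : ℝ, 0 ≤ c → cfc (cut c) p * z = 0 := by
    intro c hc
    have cc := cut_cont c
    refine cfc_mul_eq_zero hpsa (g := fun t => t) cc (by fun_prop) 16
        (fun t => cut_sq_le hc) ?_
    rw [cfc_id' ℝ p, hpz]
  have hks : k * s = s := hone 3 le_rfl
  have hk3s : k3 * s = s := hone 1 (by norm_num)
  have hkz : k * z = 0 := hzero 3 (by norm_num)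
  have hk3z : k3 * z = 0 := hzero 1 (by norm_num)
  have hsk : s * k = s := by
    have := congrArg star hks
    rwa [star_mul, hssa, hkstar] at this
  have hzk3 : star z * k3 = 0 := by
    have := congrArg star hk3z
    rwa [star_mul, hk3star, star_zero] at this
  -- products
  have hkk3 : k * k3 = k := by
    rw [hk, hk3, ← cfc_mul (cut 3) (cut 1) p c3.continuousOn c1.continuousOn]
    exact cfc_congr (fun t _ => cut_mul (by norm_num))
  have hkr : k * r = 0 := by
    rw [hk, hr, ← cfc_mul (cut 3) _ p c3.continuousOn cr.continuousOn]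
    have : ∀ t, cut 3 t * Real.sqrt (1 - cut 2 t) = 0 := by
      intro t
      rcases le_total (4 * t) 3 with h1 | h1
      · rw [cut_eq_zero h1, zero_mul]
      · rw [cut_eq_one (c := 2) (by linarith), sub_self, Real.sqrt_zero, mul_zero]
    simp only [this]
    exact cfc_const_zero ℝ p
  have hk3q : k3 * q = q := by
    rw [hk3, hq, ← cfc_mul (cut 1) _ p c1.continuousOn cq.continuousOn]
    refine cfc_congr (fun t _ => ?_)
    show cut 1 t * Real.sqrt (cut 2 t) = Real.sqrt (cut 2 t)
    rcases le_total (4 * t) 2 with h1 | h1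
    · rw [cut_eq_zero h1, Real.sqrt_zero, mul_zero]
    · rw [cut_eq_one (c := 1) (by linarith), one_mul]
  have hrr : r * r = 1 - k' := by
    rw [hr, ← cfc_mul _ _ p cr.continuousOn cr.continuousOn]
    have : ∀ t, Real.sqrt (1 - cut 2 t) * Real.sqrt (1 - cut 2 t) = 1 - cut 2 t := fun t =>
      Real.mul_self_sqrt (by linarith [cut_le_one 2 t])
    simp only [this]
    rw [cfc_sub (fun _ => (1 : ℝ)) (cut 2) p continuous_const.continuousOn c2.continuousOn,
        cfc_const_one ℝ p]
  have hqq : q * q = k' := by
    rw [hq, ← cfc_mul _ _ p cq.continuousOn cq.continuousOn]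
    exact cfc_congr (fun t _ => Real.mul_self_sqrt (cut_nonneg 2 t))
  have hrq : r * q = q * r := (cfc_commute_cfc _ _ p)
  have hsum : r * r + q * q = 1 := by rw [hrr, hqq, sub_add_cancel]
  -- right units of `w`
  have hright : ∀ e : A, star e = e → e * s = s → w * e = w := by
    intro e he hes
    have hse : s * e = s := by
      have := congrArg star hes
      rwa [star_mul, hssa, he] at this
    have e1 : star (w * (1 - e)) * (w * (1 - e)) ≤ 0 := by
      have e2 := star_left_conjugate_le_conjugate hws (1 - e)
      have e3 : star (1 - e) * (s * s) * (1 - e) = 0 := by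
        have : s * (1 - e) = 0 := by rw [mul_sub, mul_one, hse, sub_self]
        rw [mul_assoc, mul_assoc s s, this, mul_zero, mul_zero]
      rw [e3] at e2
      refine le_trans (le_of_eq ?_) e2
      rw [star_mul]
      simp only [mul_assoc]
    have e4 := eq_zero_of_le_zero e1
    rw [mul_sub, mul_one, sub_eq_zero] at e4
    exact e4.symm
  have hwp : w * p = w := hright p hpstar hps
  have hwk : w * k = w := hright k hkstar hks
  -- PIECE P
  have hrr1 : r * r ≤ 1 := by
    rw [hrr]
    exact sub_le_self _ (cfc_nonneg (fun t _ => cut_nonneg 2 t))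
  obtain ⟨y1, hy1, hy1w⟩ := h (1 - k) (z * s) (r * w) (sub_nonneg.2 hk1)
    (by rw [sub_mul, one_mul, ← mul_assoc, hkz, zero_mul, sub_zero])
    (by rw [mul_sub, mul_one, mul_assoc, hsk, sub_self])
    (by rw [sub_mul, one_mul, ← mul_assoc, hkr, zero_mul, sub_zero])
    (by rw [mul_sub, mul_one, mul_assoc, hwk, sub_self])
    (by
      have e1 : star (r * w) * (r * w) = star w * (r * r) * w := by
        rw [star_mul, hrstar]
        simp only [mul_assoc]
      have e2 : star (z * s) * (z * s) = s * s := by
        rw [star_mul, hssa]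
        calc s * star z * (z * s) = s * (p * s) := by rw [hpdef]; simp only [mul_assoc]
          _ = s * s := by rw [hps]
      rw [e1, e2]
      refine (star_left_conjugate_le_conjugate hrr1 w).trans ?_
      rw [mul_one]
      exact hws)
  set u1 : A := y1 * z * k with hu1
  have hu1s : u1 * s = r * w := by
    rw [hu1, mul_assoc, hks, hy1w, mul_assoc]
  have hu1n : ‖u1‖ ≤ 1 := by
    rw [hu1]
    calc ‖y1 * z * k‖ ≤ ‖y1 * z‖ * ‖k‖ := norm_mul_le _ _
      _ ≤ (‖y1‖ * ‖z‖) * ‖k‖ := by gcongr; exact norm_mul_le _ _
      _ ≤ (1 * 1) * 1 := by gcongr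
      _ = 1 := by norm_num
  have hu1k3 : u1 * k3 = u1 := by
    rw [hu1, mul_assoc, hkk3]
  have hle1 : ∀ y : A, ‖y‖ ≤ 1 → star y * y ≤ 1 := by
    intro y hy
    refine (CStarAlgebra.norm_le_one_iff_of_nonneg _ (star_mul_self_nonneg y)).1 ?_
    rw [CStarRing.norm_star_mul_self]
    nlinarith [norm_nonneg y]
  set d : A := 1 - star u1 * u1 with hd
  have hd0 : 0 ≤ d := sub_nonneg.2 (hle1 u1 hu1n)
  have hdk3 : Commute d k3 := by
    show d * k3 = k3 * d
    have e1 : k3 * star u1 = star u1 := by
      have := congrArg star hu1k3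
      rwa [star_mul, hk3star] at this
    have e2 : star u1 * u1 * k3 = star u1 * u1 := by rw [mul_assoc, hu1k3]
    have e3 : k3 * (star u1 * u1) = star u1 * u1 := by rw [← mul_assoc, e1]
    rw [hd, sub_mul, mul_sub, one_mul, mul_one, e2, e3]
  set t : A := CFC.sqrt d with ht
  have ht0 : 0 ≤ t := CFC.sqrt_nonneg d
  have htstar : star t = t := ht0.isSelfAdjoint.star_eq
  have htt : t * t = d := CFC.sqrt_mul_sqrt_self d hd0
  have htk3 : k3 * t = t * k3 := by
    have : Commute t k3 := by
      rw [ht, CFC.sqrt]
      exact hdk3.cfcₙ_nnreal _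
    exact this.symm
  -- PIECE Q
  have hQ : star (q * w) * (q * w) ≤ star (t * s) * (t * s) := by
    have e1 : star (q * w) * (q * w) = star w * w - star (r * w) * (r * w) := by
      rw [eq_sub_iff_add_eq, star_mul, star_mul, hrstar, hqstar]
      calc star w * q * (q * w) + star w * r * (r * w)
          = star w * (r * r + q * q) * w := by noncomm_ring
        _ = star w * w := by rw [hsum, mul_one]
    have e2 : star (t * s) * (t * s) = s * s - star (r * w) * (r * w) := by
      rw [← hu1s, star_mul, star_mul, htstar, hssa]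
      calc s * t * (t * s) = s * (t * t) * s := by simp only [mul_assoc]
        _ = s * s - s * star u1 * (u1 * s) := by rw [htt, hd]; noncomm_ring
    rw [e1, e2]
    exact sub_le_sub_right hws _
  obtain ⟨y2, hy2, hy2w⟩ := h k3 (t * s * star z) (q * w * star z) hk30
    (by rw [← mul_assoc, ← mul_assoc, htk3, mul_assoc t, hk3s])
    (by rw [mul_assoc, hzk3, mul_zero])
    (by rw [← mul_assoc, ← mul_assoc, hk3q])
    (by rw [mul_assoc, hzk3, mul_zero])
    (by
      have e1 := star_left_conjugate_le_conjugate hQ (star z)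
      rw [star_star] at e1
      rw [star_mul (q * w), star_mul (t * s), star_star]
      simpa only [mul_assoc] using e1)
  have hq2 : q * w = y2 * (t * s) := by
    have e1 := congrArg (fun x => x * z) hy2w
    have e2 : q * w * star z * z = q * w := by
      rw [mul_assoc, ← hpdef, mul_assoc, hwp]
    have e3 : y2 * (t * s * star z) * z = y2 * (t * s) := by
      calc y2 * (t * s * star z) * z = y2 * (t * (s * p)) := by
            rw [hpdef]; simp only [mul_assoc]
        _ = y2 * (t * s) := by rw [hsp]
    simp only [e2, e3] at e1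
    exact e1
  refine ⟨r * u1 + q * (y2 * t), ?_, ?_⟩
  · have key : star (r * u1 + q * (y2 * t)) * (r * u1 + q * (y2 * t))
        + star (q * u1 - r * (y2 * t)) * (q * u1 - r * (y2 * t))
        = star u1 * u1 + star (y2 * t) * (y2 * t) := by
      have e1 : star (r * u1 + q * (y2 * t)) = star u1 * r + star (y2 * t) * q := by
        rw [star_add, star_mul, star_mul q, hrstar, hqstar]
      have e2 : star (q * u1 - r * (y2 * t)) = star u1 * q - star (y2 * t) * r := by
        rw [star_sub, star_mul, star_mul r, hrstar, hqstar]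
      rw [e1, e2]
      generalize y2 * t = b
      calc (star u1 * r + star b * q) * (r * u1 + q * b)
            + (star u1 * q - star b * r) * (q * u1 - r * b)
          = star u1 * (r * r + q * q) * u1 + star b * (r * r + q * q) * b
            + (star u1 * (r * q - q * r) * b + star b * (q * r - r * q) * u1) := by
              noncomm_ring
        _ = star u1 * u1 + star b * b := by
              rw [hsum, hrq, sub_self]; simp
    have e3 : star (y2 * t) * (y2 * t) ≤ t * t := by
      have := star_left_conjugate_le_conjugate (hle1 y2 hy2) t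
      rw [mul_one, htstar] at this
      rw [star_mul, htstar]
      simpa only [mul_assoc] using this
    have e4 : star (r * u1 + q * (y2 * t)) * (r * u1 + q * (y2 * t)) ≤ 1 := by
      calc star (r * u1 + q * (y2 * t)) * (r * u1 + q * (y2 * t))
          ≤ star (r * u1 + q * (y2 * t)) * (r * u1 + q * (y2 * t))
            + star (q * u1 - r * (y2 * t)) * (q * u1 - r * (y2 * t)) :=
            le_add_of_nonneg_right (star_mul_self_nonneg _)
        _ = star u1 * u1 + star (y2 * t) * (y2 * t) := key
        _ ≤ star u1 * u1 + t * t := by gcongr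
        _ = 1 := by rw [htt, hd, add_sub_cancel]
    have e5 := (CStarAlgebra.norm_le_one_iff_of_nonneg _ (star_mul_self_nonneg _)).2 e4
    rw [CStarRing.norm_star_mul_self] at e5
    nlinarith [norm_nonneg (r * u1 + q * (y2 * t))]
  · calc (r * u1 + q * (y2 * t)) * s = r * (u1 * s) + q * (y2 * (t * s)) := by
          simp only [add_mul, mul_assoc]
      _ = (r * r + q * q) * w := by rw [hu1s, ← hq2]; noncomm_ring
      _ = w := by rw [hsum, one_mul]

end Pool.Agent.Work.MP_3f690c_an.T3
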