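import Pool.Agent.Work.MP_3f690c_an.T3.Defs

/-!
# The induction over the frame
-/

open scoped ComplexOrder

namespace Pool.Agent.Work.MP_3f690c_an.T3

universe u

variable {A : Type u} [CStarAlgebra A] [PartialOrder A] [StarOrderedRing A]

private lemma ip_nonneg {n : ℕ} (v : Fin n → A) : 0 ≤ ip v v :=
  Finset.sum_nonneg fun l _ => star_mul_self_nonneg (v l)

private lemma eq_zero_of_ip {n : ℕ} (v : Fin n → A) (h : ip v v = 0) : v = 0 := by
  funext l
  have h1 : ∀ l ∈ Finset.univ, (0 : A) ≤ star (v l) * v l :=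
    fun l _ => star_mul_self_nonneg (v l)
  have h2 := (Finset.sum_eq_zero_iff_of_nonneg h1).1 h l (Finset.mem_univ l)
  exact (CStarRing.star_mul_self_eq_zero_iff (v l)).1 h2

private lemma zero_contr {n p : ℕ} : IsContr (fun (_ : Fin n → A) => (0 : Fin p → A)) where
  map_add v w := by simp
  map_mul v a := by funext l; simp
  le v := by
    have : ip (0 : Fin p → A) 0 = 0 := by simp [ip]
    rw [this]
    exact ip_nonneg v

omit [PartialOrder A] [StarOrderedRing A] in
private lemma eq_zero_of_app {m n q : ℕ} (C : Fin m → Fin q → A) (X : Fin n → Fin q → A)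
    (hC : ∀ i i', ∑ j, star (C j i) * C j i' = if i = i' then 1 else 0)
    (hX : ∀ j, app X (C j) = 0) : X = 0 := by
  funext l i
  have h1 : X l i = ∑ i', X l i' * (if i' = i then 1 else 0) := by simp
  rw [h1]
  have h2 : ∀ i', X l i' * (if i' = i then (1 : A) else 0)
      = ∑ j, X l i' * star (C j i') * C j i := by
    intro i'
    rw [← hC i' i, Finset.mul_sum]
    exact Finset.sum_congr rfl fun j _ => by rw [mul_assoc]
  rw [Finset.sum_congr rfl fun i' _ => h2 i', Finset.sum_comm]
  show ∑ j, ∑ i', X l i' * star (C j i') * C j i = 0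
  refine Finset.sum_eq_zero fun j _ => ?_
  rw [← Finset.sum_mul]
  have h3 : ∑ i', X l i' * star (C j i') = 0 := congrFun (hX j) l
  rw [h3, zero_mul]

private lemma aux (h : ElimStmt A) (m q : ℕ) (k k' : Fin m → A) (C : Fin m → Fin q → A)
    (hk : ∀ j, IsPair (k j) (k' j)) (hkC : ∀ j i, k j * C j i = C j i)
    (hC : ∀ i i', ∑ j, star (C j i) * C j i' = if i = i' then 1 else 0) (r : ℕ) :
    ∀ (n n' : ℕ) (X : Fin n → Fin q → A) (W : Fin n' → Fin q → A),
      (∀ i j, ip (col X i) (col X j) = ip (col W i) (col W j)) →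
      (∀ j : Fin m, r ≤ (j : ℕ) → app X (C j) = 0) →
      ∃ T : (Fin n → A) → (Fin n' → A), IsContr T ∧ ∀ i, T (col X i) = col W i := by
  induction r with
  | zero =>
    intro n n' X W hG hX
    have hX0 : X = 0 := eq_zero_of_app C X hC fun j => hX j (Nat.zero_le _)
    have hW0 : ∀ i, col W i = 0 := by
      intro i
      apply eq_zero_of_ip
      rw [← hG i i, hX0]
      simp [ip, col]
    exact ⟨fun _ => 0, zero_contr, fun i => (hW0 i).symm⟩
  | succ r ih =>
    intro n n' X W hG hX
    by_cases hr : r < m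
    · obtain ⟨X₁, W₁, hG₁, hX₁, hX₁', hT⟩ :=
        h n n' q (k ⟨r, hr⟩) (k' ⟨r, hr⟩) (C ⟨r, hr⟩) X W (hk _) (hkC _) hG
      apply hT
      apply ih (n + 1) (n' + 1) X₁ W₁ hG₁
      intro j hj
      rcases Nat.eq_or_lt_of_le hj with hj' | hj'
      · have : j = ⟨r, hr⟩ := Fin.ext hj'.symm
        rw [this]
        exact hX₁
      · exact hX₁' _ (hX j hj')
    · apply ih n n' X W hG
      intro j hj
      exact absurd (lt_of_le_of_lt hj j.2) hr

/-- The factorisation theorem, by induction over the elements of the frame. -/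
theorem mainStmt (h : ElimStmt A) : MainStmt A := by
  intro m n n' q k k' C X W hk hkC hC hG
  apply aux h m q k k' C hk hkC hC m n n' X W hG
  intro j hj
  exact absurd j.2 (Nat.not_lt.2 hj)

end Pool.Agent.Work.MP_3f690c_an.T3
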