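import Pool.Agent.Work.MP_3f690c_an.T3.Defs

/-!
# MAT: a frame of the algebra gives a frame for q columns
-/

open scoped ComplexOrder

namespace Pool.Agent.Work.MP_3f690c_an.T3

set_option linter.unusedSectionVars false

universe u

variable {A : Type u} [CStarAlgebra A] [PartialOrder A] [StarOrderedRing A]

theorem matStmt (h : MainStmt A) (hf : HasFrame A) : MatStmt A := by
  classical
  obtain ⟨m, k, k', c, hp, hk, hs⟩ := hf
  intro n n' q X W hXW
  refine h (m * q) n n' q (fun t => k (finProdFinEquiv.symm t).1)
    (fun t => k' (finProdFinEquiv.symm t).1)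
    (fun t i' => if (finProdFinEquiv.symm t).2 = i' then c (finProdFinEquiv.symm t).1 else 0)
    X W (fun t => hp _) ?_ ?_ hXW
  · intro t i
    by_cases h1 : (finProdFinEquiv.symm t).2 = i
    · simp only [h1, if_true]
      exact hk _
    · simp only [h1, if_false, mul_zero]
  · intro i i'
    rw [Fintype.sum_equiv finProdFinEquiv.symm _
      (fun s : Fin m × Fin q => star (if s.2 = i then c s.1 else 0) *
        (if s.2 = i' then c s.1 else 0)) (fun t => rfl)]
    rw [Fintype.sum_prod_type]
    by_cases h1 : i = i'
    · rw [if_pos h1, ← hs]
      refine Finset.sum_congr rfl fun j _ => ?_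
      rw [Finset.sum_eq_single i]
      · simp [h1]
      · intro b _ hb
        simp only [hb, if_false, star_zero, zero_mul]
      · intro hb
        exact absurd (Finset.mem_univ i) hb
    · rw [if_neg h1]
      refine Finset.sum_eq_zero fun j _ => Finset.sum_eq_zero fun l _ => ?_
      by_cases h2 : l = i
      · have h3 : ¬ l = i' := fun h4 => h1 (h2.symm.trans h4)
        simp only [h3, if_false, mul_zero]
      · simp only [h2, if_false, star_zero, zero_mul]

end Pool.Agent.Work.MP_3f690c_an.T3
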