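import Pool.Agent.Work.MP_3f690c_an.T3.Defs

/-!
# The right unit `z^* z` is nice
-/

open scoped ComplexOrder

namespace Pool.Agent.Work.MP_3f690c_an.T3

universe u

variable {A : Type u} [CStarAlgebra A] [PartialOrder A] [StarOrderedRing A]

theorem nice_of_lemP (h : LemP A) {z : A} (hz : z * z = 0) (hz1 : ‖z‖ ≤ 1) :
    Nice (star z * z) := by
  intro x w hx hw
  have hxx : (0 : A) ≤ star x * x := star_mul_self_nonneg x
  obtain ⟨s, hs0, hss⟩ : ∃ s : A, 0 ≤ s ∧ s * s = star x * x :=
    ⟨CFC.sqrt (star x * x), CFC.sqrt_nonneg _, CFC.sqrt_mul_sqrt_self _ hxx⟩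
  have hsa : star s = s := (IsSelfAdjoint.of_nonneg hs0).star_eq
  have hpx : star z * z * star x = star x := by
    have h1 := congrArg star hx
    rwa [star_mul, star_mul, star_star] at h1
  have hps : star z * z * s = s := by
    have h1 : (star z * z * s - s) * star (star z * z * s - s) = 0 := by
      have h2 : star (star z * z * s - s) = s * (star z * z) - s := by
        rw [star_sub, star_mul, star_mul, star_star, hsa]
      rw [h2]
      have h3 : (star z * z * s - s) * (s * (star z * z) - s) =
          (star z * z * (s * s) - s * s) * (star z * z) - (star z * z * (s * s) - s * s) := by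
        noncomm_ring
      rw [h3, hss, ← mul_assoc (star z * z) (star x) x, hpx, sub_self, zero_mul, sub_zero]
    exact sub_eq_zero.1 ((CStarRing.mul_star_self_eq_zero_iff _).1 h1)
  obtain ⟨v, hv, hvs⟩ := h z s w hz hz1 hs0 hps (hw.trans_eq hss.symm)
  obtain ⟨u, hu, hus⟩ := h z s x hz hz1 hs0 hps hss.symm.le
  have hu1 : star u * u ≤ 1 := by
    rw [← CStarAlgebra.norm_le_one_iff_of_nonneg _ (star_mul_self_nonneg u),
      CStarRing.norm_star_mul_self]
    nlinarith [norm_nonneg u]
  have he : (0 : A) ≤ 1 - star u * u := sub_nonneg.2 hu1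
  obtain ⟨r, hr0, hrr⟩ : ∃ r : A, 0 ≤ r ∧ r * r = 1 - star u * u :=
    ⟨CFC.sqrt (1 - star u * u), CFC.sqrt_nonneg _, CFC.sqrt_mul_sqrt_self _ he⟩
  have hra : star r = r := (IsSelfAdjoint.of_nonneg hr0).star_eq
  have hrs : r * s = 0 := by
    have h1 : star (r * s) * (r * s) = 0 := by
      have h2 : star (r * s) * (r * s) = s * (r * r) * s := by
        rw [star_mul, hra, hsa]
        noncomm_ring
      have h3 : s * (1 - star u * u) * s = s * s - star (u * s) * (u * s) := by
        rw [star_mul, hsa]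
        noncomm_ring
      rw [h2, hrr, h3, hus, hss, sub_self]
    exact (CStarRing.star_mul_self_eq_zero_iff _).1 h1
  have hes : (1 - star u * u) * s = 0 := by
    rw [← hrr, mul_assoc, hrs, mul_zero]
  have hsu : s = star u * x := by
    rw [sub_mul, one_mul, sub_eq_zero] at hes
    rw [← hus, ← mul_assoc]
    exact hes
  refine ⟨v * star u, ?_, ?_⟩
  · calc ‖v * star u‖ ≤ ‖v‖ * ‖star u‖ := norm_mul_le _ _
      _ ≤ 1 * 1 := by
        rw [norm_star]
        exact mul_le_mul hv hu (norm_nonneg _) zero_le_one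
      _ = 1 := one_mul 1
  · rw [mul_assoc, ← hsu, hvs]

end Pool.Agent.Work.MP_3f690c_an.T3
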