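import Pool.Agent.Work.MP_3f690c_an.T3.Defs

/-!
# Pairs of units under a square-zero element
-/

open scoped ComplexOrder

namespace Pool.Agent.Work.MP_3f690c_an.T3

universe u

variable {A : Type u} [CStarAlgebra A] [PartialOrder A] [StarOrderedRing A]

namespace Pair

/-- the cut-off function -/
noncomputable def gg (d : ℝ) (t : ℝ) : ℝ := min 1 (max 0 ((t - d) / d))

lemma gg_cont (d : ℝ) : Continuous (gg d) := by unfold gg; fun_prop

lemma gg_nonneg (d t : ℝ) : 0 ≤ gg d t := by unfold gg; positivity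

lemma gg_le_one (d t : ℝ) : gg d t ≤ 1 := min_le_left _ _

lemma gg_of_le {d t : ℝ} (hd : 0 < d) (h : t ≤ d) : gg d t = 0 := by
  unfold gg
  rw [max_eq_left (div_nonpos_of_nonpos_of_nonneg (by linarith) hd.le)]
  simp

lemma gg_of_ge {d t : ℝ} (hd : 0 < d) (h : 2 * d ≤ t) : gg d t = 1 := by
  unfold gg
  have h1 : 1 ≤ (t - d) / d := by
    rw [le_div_iff₀ hd]; linarith
  rw [max_eq_right (by linarith), min_eq_left h1]

/-- the normalising function -/
noncomputable def rho (d : ℝ) (t : ℝ) : ℝ := 1 / Real.sqrt (max t d)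

lemma rho_cont {d : ℝ} (hd : 0 < d) : Continuous (rho d) := by
  unfold rho
  refine Continuous.div continuous_const (by fun_prop) fun t => ?_
  exact (Real.sqrt_pos.mpr (lt_of_lt_of_le hd (le_max_right _ _))).ne'

/-- the quotient function -/
noncomputable def tau (d : ℝ) (t : ℝ) : ℝ := (rho d t - rho d 0) / max t d

lemma tau_cont {d : ℝ} (hd : 0 < d) : Continuous (tau d) := by
  unfold tau
  refine Continuous.div ((rho_cont hd).sub continuous_const) (by fun_prop) fun t => ?_
  exact (lt_of_lt_of_le hd (le_max_right _ _)).ne'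

lemma tau_mul {d : ℝ} (hd : 0 < d) (t : ℝ) : tau d t * t = rho d t - rho d 0 := by
  unfold tau
  by_cases h : t ≤ d
  · have : rho d t = rho d 0 := by
      unfold rho
      rw [max_eq_right h, max_eq_right hd.le]
    rw [this]; simp
  · push Not at h
    rw [max_eq_left h.le]
    have : t ≠ 0 := by linarith
    field_simp

end Pair

open Pair

theorem pairStmt (h : ∀ z : A, z * z = 0 → ‖z‖ ≤ 1 → Nice (star z * z)) : PairStmt A := by
  intro z δ hz hδ
  have hd : 0 < δ / 4 := by linarith
  have hd2 : 0 < δ / 2 := by linarith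
  set p : A := star z * z with hp
  have hp0 : 0 ≤ p := star_mul_self_nonneg z
  have hpsa : IsSelfAdjoint p := IsSelfAdjoint.star_mul_self z
  have hpz : p * z = 0 := by rw [hp, mul_assoc, hz, mul_zero]
  have hspec : ∀ t ∈ spectrum ℝ p, 0 ≤ t := fun t ht => spectrum_nonneg_of_nonneg hp0 ht
  -- the function rho
  have hrho : cfc (rho (δ / 4)) p * z = (rho (δ / 4) 0) • z := by
    have e1 : cfc (rho (δ / 4)) p
        = cfc (fun _ : ℝ => rho (δ / 4) 0) p + cfc (tau (δ / 4)) p * p := by
      have e2 : cfc (tau (δ / 4)) p * p = cfc (fun t : ℝ => tau (δ / 4) t * t) p := by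
        rw [cfc_mul (tau (δ / 4)) (fun t : ℝ => t) p (tau_cont hd).continuousOn
          continuousOn_id, cfc_id' ℝ p]
      rw [e2, ← cfc_add (a := p) (fun _ : ℝ => rho (δ / 4) 0)
        (fun t : ℝ => tau (δ / 4) t * t) continuousOn_const
        ((tau_cont hd).mul continuous_id).continuousOn]
      congr 1
      ext t
      rw [tau_mul hd]; ring
    rw [e1, add_mul, mul_assoc, hpz, mul_zero, add_zero, cfc_const _ _ hpsa,
      ← Algebra.smul_def]
  set r : A := cfc (rho (δ / 4)) p with hr
  have hrsa : star r = r := (cfc_predicate (rho (δ / 4)) p : IsSelfAdjoint r)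
  set z' : A := z * r with hz'
  have hzz : z' * z' = 0 := by
    rw [hz', mul_assoc, ← mul_assoc r z r, hrho, smul_mul_assoc, mul_smul_comm, ← mul_assoc, hz,
      zero_mul, smul_zero]
  have hp' : star z' * z' = cfc (fun t : ℝ => t / max t (δ / 4)) p := by
    have e1 : star z' * z' = r * p * r := by
      rw [hz', star_mul, hrsa, hp]; simp only [mul_assoc]
    have e2 : r * p * r = cfc (fun t : ℝ => rho (δ / 4) t * t * rho (δ / 4) t) p := by
      have e3 : r * p = cfc (fun t : ℝ => rho (δ / 4) t * t) p := by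
        rw [hr]
        have := cfc_mul (rho (δ / 4)) (fun t : ℝ => t) p (rho_cont hd).continuousOn
          continuousOn_id
        rw [this, cfc_id' ℝ p]
      rw [e3, hr, ← cfc_mul (fun t : ℝ => rho (δ / 4) t * t) (rho (δ / 4)) p
        ((rho_cont hd).mul continuous_id).continuousOn (rho_cont hd).continuousOn]
    rw [e1, e2]
    apply cfc_congr
    intro t ht
    have h0 : 0 < max t (δ / 4) := lt_of_lt_of_le hd (le_max_right _ _)
    have h1 : Real.sqrt (max t (δ / 4)) * Real.sqrt (max t (δ / 4)) = max t (δ / 4) :=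
      Real.mul_self_sqrt h0.le
    have h2 : Real.sqrt (max t (δ / 4)) ≠ 0 := (Real.sqrt_pos.mpr h0).ne'
    simp only [rho]
    rw [eq_div_iff h0.ne']
    nth_rewrite 3 [← h1]
    field_simp
  have hcf : Continuous fun t : ℝ => t / max t (δ / 4) :=
    Continuous.div continuous_id (by fun_prop) fun t =>
      (lt_of_lt_of_le hd (le_max_right _ _)).ne'
  have hz1 : ‖z'‖ ≤ 1 := by
    have e1 : ‖star z' * z'‖ ≤ 1 := by
      rw [CStarAlgebra.norm_le_one_iff_of_nonneg _ (star_mul_self_nonneg z'), hp']
      apply cfc_le_one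
      intro t ht
      rw [div_le_one (lt_of_lt_of_le hd (le_max_right _ _))]
      exact le_max_left _ _
    rw [CStarRing.norm_star_mul_self] at e1
    nlinarith [norm_nonneg z']
  have hnice := h z' hzz hz1
  set k : A := cfc (gg (δ / 2)) p with hk
  set k' : A := cfc (gg (δ / 4)) p with hk'
  have hk'sa : star k' = k' := (cfc_predicate (gg (δ / 4)) p : IsSelfAdjoint k')
  refine ⟨k, k', ⟨?_, ?_, hk'sa, ?_, ?_⟩, ?_⟩
  · exact cfc_nonneg fun t _ => gg_nonneg _ _
  · exact cfc_le_one _ _ fun t _ => gg_le_one _ _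
  · rw [hk, hk', ← cfc_mul (gg (δ / 4)) (gg (δ / 2)) p (gg_cont _).continuousOn
      (gg_cont _).continuousOn]
    congr 1
    ext t
    by_cases ht : t ≤ δ / 2
    · rw [gg_of_le hd2 ht, mul_zero]
    · push Not at ht
      rw [gg_of_ge hd (by linarith), one_mul]
  · intro x w hx hw
    apply hnice x w ?_ hw
    rw [hp', ← hx, mul_assoc, hk', ← cfc_mul (gg (δ / 4)) (fun t : ℝ => t / max t (δ / 4)) p
      (gg_cont _).continuousOn hcf.continuousOn]
    congr 2
    ext t
    by_cases ht : t ≤ δ / 4
    · rw [gg_of_le hd ht, zero_mul]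
    · push Not at ht
      rw [max_eq_left ht.le, div_self (by linarith), mul_one]
  · unfold tail
    rw [hk, ← cfc_mul (gg (δ / 2)) (fun t : ℝ => max (t - δ) 0) p (gg_cont _).continuousOn
      (by fun_prop)]
    congr 1
    ext t
    by_cases ht : t ≤ δ
    · rw [max_eq_right (by linarith), mul_zero]
    · push Not at ht
      rw [gg_of_ge hd2 (by linarith), one_mul]

end Pool.Agent.Work.MP_3f690c_an.T3
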