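import Pool.Agent.Work.MP_3f690c_an.T3.Defs
import Pool.Agent.Work.MP_3f690c_an.Necess

/-!
# One step completion implies the factorisation property for off-diagonal elements
-/

open scoped ComplexOrder

namespace Pool.Agent.Work.MP_3f690c_an.T3

universe u

variable {A : Type u} [CStarAlgebra A] [PartialOrder A] [StarOrderedRing A]

namespace PropFAux

/-- `a^* a ≤ b^* b` and `b x = 0` imply `a x = 0`. -/
theorem kill {a b x : A} (h : star a * a ≤ star b * b) (hb : b * x = 0) : a * x = 0 := by
  have h1 : star x * (star a * a) * x ≤ star x * (star b * b) * x :=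
    star_left_conjugate_le_conjugate h x
  have h2 : star x * (star b * b) * x = 0 := by
    rw [mul_assoc, mul_assoc, hb, mul_zero, mul_zero]
  have h3 : star x * (star a * a) * x = star (a * x) * (a * x) := by
    rw [star_mul]
    simp only [mul_assoc]
  rw [h2, h3] at h1
  have h4 := le_antisymm h1 (star_mul_self_nonneg (a * x))
  exact (CStarRing.star_mul_self_eq_zero_iff _).1 h4

theorem cfc_kill (e : A) (f g : ℝ → ℝ) (hf : Continuous f) (hg : Continuous g)
    (h : ∀ t ∈ spectrum ℝ e, f t * f t ≤ g t * g t) {x : A} (hx : cfc g e * x = 0) :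
    cfc f e * x = 0 := by
  refine kill ?_ hx
  have h1 : star (cfc f e) = cfc f e := (cfc_predicate f e : IsSelfAdjoint _)
  have h2 : star (cfc g e) = cfc g e := (cfc_predicate g e : IsSelfAdjoint _)
  rw [h1, h2, ← cfc_mul f f e hf.continuousOn hf.continuousOn,
    ← cfc_mul g g e hg.continuousOn hg.continuousOn]
  exact cfc_mono h (hf.mul hf).continuousOn (hg.mul hg).continuousOn

/-- a contractive unit -/
theorem exists_unit (e : A) (he : 0 ≤ e) : ∃ f : A, 0 ≤ f ∧ ‖f‖ ≤ 1 ∧
    (∀ x, e * x = x → f * x = x) ∧ ∀ x, x * e = 0 → x * f = 0 := by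
  have hes : IsSelfAdjoint e := .of_nonneg he
  have hc : Continuous fun t : ℝ => min t 1 := by fun_prop
  have hc1 : Continuous fun t : ℝ => 1 - min t 1 := by fun_prop
  have hc2 : Continuous fun t : ℝ => 1 - t := by fun_prop
  have hf0 : 0 ≤ cfc (fun t : ℝ => min t 1) e :=
    cfc_nonneg fun t ht => le_min (spectrum_nonneg_of_nonneg he ht) zero_le_one
  have hfs : star (cfc (fun t : ℝ => min t 1) e) = cfc (fun t : ℝ => min t 1) e :=
    (cfc_predicate (fun t : ℝ => min t 1) e : IsSelfAdjoint _)
  refine ⟨cfc (fun t : ℝ => min t 1) e, hf0, ?_, fun x hx => ?_, fun x hx => ?_⟩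
  · refine norm_cfc_le zero_le_one fun t ht => ?_
    have h0 := spectrum_nonneg_of_nonneg he ht
    rw [Real.norm_eq_abs, abs_of_nonneg (le_min h0 zero_le_one)]
    exact min_le_right _ _
  · have h1 : cfc (fun t : ℝ => 1 - t) e * x = 0 := by
      rw [cfc_sub (fun _ : ℝ => 1) (fun t : ℝ => t) e continuousOn_const continuousOn_id,
        cfc_const_one ℝ e, cfc_id' ℝ e, sub_mul, one_mul, hx, sub_self]
    have h2 : cfc (fun t : ℝ => 1 - min t 1) e * x = 0 := by
      refine cfc_kill e _ _ hc1 hc2 (fun t ht => ?_) h1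
      rcases le_total t 1 with h | h
      · simp [min_eq_left h]
      · simp only [min_eq_right h, sub_self, mul_zero]
        exact mul_self_nonneg _
    rw [cfc_sub (fun _ : ℝ => 1) (fun t : ℝ => min t 1) e continuousOn_const hc.continuousOn,
      cfc_const_one ℝ e, sub_mul, one_mul, sub_eq_zero] at h2
    exact h2.symm
  · have h1 : cfc (fun t : ℝ => t) e * star x = 0 := by
      rw [cfc_id' ℝ e]
      have := congrArg star hx
      rwa [star_mul, star_zero, hes.star_eq] at this
    have h2 : cfc (fun t : ℝ => min t 1) e * star x = 0 := by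
      refine cfc_kill e _ _ hc continuous_id (fun t ht => ?_) h1
      have h0 := spectrum_nonneg_of_nonneg he ht
      exact mul_self_le_mul_self (le_min h0 zero_le_one) (min_le_left _ _)
    have := congrArg star h2
    rwa [star_mul, star_zero, star_star, hfs] at this

theorem main (H : ToepDiag A) (h : StepProp A 2) (e x w : A) (he : 0 ≤ e) (hn : ‖e‖ ≤ 1)
    (hex : e * x = x) (hxe : x * e = 0) (hew : e * w = w) (hwe : w * e = 0)
    (hwx : star w * w ≤ star x * x) : ∃ y : A, ‖y‖ ≤ 1 ∧ w = y * x := by
  have hes : star e = e := (IsSelfAdjoint.of_nonneg he).star_eq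
  obtain ⟨b, hb0, hbb⟩ : ∃ b : A, 0 ≤ b ∧ b * b = star x * x :=
    ⟨CFC.sqrt (star x * x), CFC.sqrt_nonneg _,
      CFC.sqrt_mul_sqrt_self _ (star_mul_self_nonneg x)⟩
  have hbs : star b = b := (IsSelfAdjoint.of_nonneg hb0).star_eq
  have hbe : b * e = 0 := by
    refine kill (a := b) (b := x) ?_ hxe
    rw [hbs, hbb]
  have heb : e * b = 0 := by
    have := congrArg star hbe
    rwa [star_mul, star_zero, hes, hbs] at this
  have hbx : b * x = 0 := by rw [← hex, ← mul_assoc, hbe, zero_mul]
  have hbw : b * w = 0 := by rw [← hew, ← mul_assoc, hbe, zero_mul]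
  have hxb : star x * b = 0 := by
    have := congrArg star hbx
    rwa [star_mul, star_zero, hbs] at this
  have hwb : star w * b = 0 := by
    have := congrArg star hbw
    rwa [star_mul, star_zero, hbs] at this
  have hwx0 : w * x = 0 := by rw [← hex, ← mul_assoc, hwe, zero_mul]
  let a : ℤ → A := fun l => if l = 0 then e * e + b * b else if l = 1 then x + star w else
    if l = -1 then star x + w else 0
  have ha0 : a 0 = e * e + b * b := by simp [a]
  have ha1 : a 1 = x + star w := by simp [a]
  have ha2 : a (-1) = star x + w := by simp [a]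
  have hpos : 0 ≤ toep a 2 := H e b x w a he hb0 heb hex hxe hew hwe hbb.ge
    (hwx.trans hbb.ge) ha0 ha1 ha2
  obtain ⟨y, hy, hY⟩ := h a hpos
  have hy0 : y 0 = e * e + b * b := by rw [hy 0 (by norm_num), ha0]
  have hy1 : y 1 = x + star w := by rw [hy 1 (by norm_num), ha1]
  have hy2 : y (-1) = star x + w := by rw [hy (-1) (by norm_num), ha2]
  -- the kernel vector
  have key : y (-2) * (x * b) = w * b := by
    have key := Necess.kernel3 (toep y 3) hY ![0, -b, x * b] rfl ?_ ?_
    · rw [Fin.sum_univ_three] at key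
      have e0 : (toep y 3) 0 1 = y (-1) := by simp [toep]
      have e1 : (toep y 3) 0 2 = y (-2) := by simp [toep]
      simp only [Matrix.cons_val_zero, Matrix.cons_val_one, Matrix.cons_val_two,
        Matrix.head_cons, Matrix.tail_cons, mul_zero, zero_add, e0, e1, hy2] at key
      rw [mul_neg, add_mul, hxb, zero_add, neg_add_eq_zero] at key
      exact key.symm
    · rw [Fin.sum_univ_three]
      have e0 : (toep y 3) 1 1 = y 0 := by simp [toep]
      have e1 : (toep y 3) 1 2 = y (-1) := by simp [toep]
      simp only [Matrix.cons_val_zero, Matrix.cons_val_one, Matrix.cons_val_two,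
        Matrix.head_cons, Matrix.tail_cons, mul_zero, zero_add, e0, e1, hy2, hy0]
      rw [mul_neg, add_mul, mul_assoc e, heb, mul_zero, zero_add, add_mul, ← mul_assoc w, hwx0,
        zero_mul, add_zero, ← mul_assoc, ← hbb, neg_add_cancel]
    · rw [Fin.sum_univ_three]
      have e0 : (toep y 3) 2 1 = y 1 := by simp [toep]
      have e1 : (toep y 3) 2 2 = y 0 := by simp [toep]
      simp only [Matrix.cons_val_zero, Matrix.cons_val_one, Matrix.cons_val_two,
        Matrix.head_cons, Matrix.tail_cons, mul_zero, zero_add, e0, e1, hy1, hy0]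
      rw [mul_neg, add_mul, hwb, add_zero, add_mul, mul_assoc e, ← mul_assoc e x, hex,
        ← mul_assoc e x, hex, mul_assoc b, ← mul_assoc b x, hbx, zero_mul, mul_zero, add_zero,
        neg_add_cancel]
  have hd : y (-2) * x = w := by
    have h1 : (y (-2) * x - w) * b = 0 := by rw [sub_mul, mul_assoc, key, sub_self]
    have h2 : b * star (y (-2) * x - w) = 0 := by
      have := congrArg star h1
      rwa [star_mul, star_zero, hbs] at this
    have h3 : x * star (y (-2) * x - w) = 0 := by
      refine kill (b := b) ?_ h2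
      rw [hbs, hbb]
    have h4 : w * star (y (-2) * x - w) = 0 := by
      refine kill (b := b) ?_ h2
      rw [hbs, hbb]
      exact hwx
    have h5 : (y (-2) * x - w) * star (y (-2) * x - w) = 0 := by
      rw [sub_mul, mul_assoc, h3, h4, mul_zero, sub_self]
    exact sub_eq_zero.1 ((CStarRing.mul_star_self_eq_zero_iff _).1 h5)
  refine ⟨e * y (-2) * e, ?_, by rw [mul_assoc, hex, mul_assoc, hd, hew]⟩
  -- the norm
  set c : A := e * y (-2) * e with hc
  obtain ⟨B, hB⟩ := Necess.nonneg_fac hY
  have hYB : ∀ i j, toep y 3 i j = ∑ l, star (B l i) * B l j := by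
    intro i j
    rw [hB, CStarMatrix.mul_apply]
    simp only [CStarMatrix.star_apply]
  have q00 : ∑ l, star (B l 0) * B l 0 = e * e + b * b := by
    rw [← hYB, ← hy0]
    simp [toep]
  have q22 : ∑ l, star (B l 2) * B l 2 = e * e + b * b := by
    rw [← hYB, ← hy0]
    simp [toep]
  have q02 : ∑ l, star (B l 0) * B l 2 = y (-2) := by
    rw [← hYB]
    simp [toep]
  have q20 : ∑ l, star (B l 2) * B l 0 = star (y (-2)) := by
    rw [← q02, star_sum]
    simp only [star_mul, star_star]
  have hsum : 0 ≤ ∑ l, star (B l 0 * (e * c) - B l 2 * e) * (B l 0 * (e * c) - B l 2 * e) :=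
    Finset.sum_nonneg fun l _ => star_mul_self_nonneg _
  have hexp : ∑ l, star (B l 0 * (e * c) - B l 2 * e) * (B l 0 * (e * c) - B l 2 * e) =
      star (e * c) * (∑ l, star (B l 0) * B l 0) * (e * c) -
        star (e * c) * (∑ l, star (B l 0) * B l 2) * e -
        e * (∑ l, star (B l 2) * B l 0) * (e * c) + e * (∑ l, star (B l 2) * B l 2) * e := by
    simp only [Finset.mul_sum, Finset.sum_mul, ← Finset.sum_sub_distrib, ← Finset.sum_add_distrib]
    refine Finset.sum_congr rfl fun l _ => ?_
    rw [star_sub, star_mul (B l 0), star_mul (B l 2), hes]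
    noncomm_ring
  have hcc : star c = e * star (y (-2)) * e := by
    rw [hc, star_mul, star_mul, hes, mul_assoc]
  have he4 : e * (e * e + b * b) * e = e * e * (e * e) := by
    rw [mul_add, add_mul, ← mul_assoc e b b, heb, zero_mul, zero_mul, add_zero]
    simp only [mul_assoc]
  have t1 : star (e * c) * (e * e + b * b) * (e * c) = star c * (e * e * (e * e)) * c := by
    rw [← he4, star_mul, hes]
    simp only [mul_assoc]
  have t2 : star (e * c) * y (-2) * e = star c * c := by
    have h1 : star c * e * y (-2) * e = star c * (e * y (-2) * e) := by simp only [mul_assoc]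
    rw [star_mul, hes, h1, ← hc]
  have t3 : e * star (y (-2)) * (e * c) = star c * c := by
    rw [hcc]
    simp only [mul_assoc]
  rw [hexp, q00, q02, q20, q22, t1, t2, t3, he4] at hsum
  have hE0 : 0 ≤ e * e * (e * e) := by
    have := star_mul_self_nonneg (e * e)
    rwa [star_mul, hes] at this
  have hE1 : e * e * (e * e) ≤ 1 := by
    rw [← CStarAlgebra.norm_le_one_iff_of_nonneg _ hE0]
    have h1 : ‖e * e‖ ≤ 1 := by
      refine (norm_mul_le _ _).trans ?_
      nlinarith [norm_nonneg e]
    refine (norm_mul_le _ _).trans ?_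
    nlinarith [norm_nonneg (e * e)]
  have hE2 : star c * (e * e * (e * e)) * c ≤ star c * c := by
    have := star_left_conjugate_le_conjugate hE1 c
    rwa [mul_one] at this
  have hfin : star c * c ≤ 1 := by
    have h1 : star c * (e * e * (e * e)) * c - star c * c - star c * c + e * e * (e * e) ≤
        star c * c - star c * c - star c * c + 1 := by gcongr
    have h2 : star c * c - star c * c - star c * c + 1 = 1 - star c * c := by abel
    rw [h2] at h1
    exact sub_nonneg.1 (hsum.trans h1)
  have h1 : ‖star c * c‖ ≤ 1 :=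
    (CStarAlgebra.norm_le_one_iff_of_nonneg _ (star_mul_self_nonneg c)).2 hfin
  rw [CStarRing.norm_star_mul_self] at h1
  nlinarith [norm_nonneg c]

end PropFAux

/-- One step completion implies the factorisation property for off-diagonal elements. -/
theorem propF_of_step (H : ToepDiag A) (h : StepProp A 2) : PropF A := by
  intro e x w he hex hxe hew hwe hwx
  obtain ⟨f, hf0, hf1, hf2, hf3⟩ := PropFAux.exists_unit e he
  exact PropFAux.main H h f x w hf0 hf1 (hf2 x hex) (hf3 x hxe) (hf2 w hew) (hf3 w hwe) hwx

end Pool.Agent.Work.MP_3f690c_an.T3
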