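import Pool.Agent.Work.MP_3f690c_an.T3.Defs

/-!
# Separation of orthogonal positive elements
-/

open scoped ComplexOrder

namespace Pool.Agent.Work.MP_3f690c_an.T3

universe u

variable {A : Type u} [CStarAlgebra A] [PartialOrder A] [StarOrderedRing A]

omit [PartialOrder A] [StarOrderedRing A] in
private theorem saw_kill {d h : A} (hsa : star h = h) (hd : d * (h * h) = 0) : d * h = 0 := by
  rw [← CStarRing.mul_star_self_eq_zero_iff, star_mul, hsa]
  calc d * h * (h * star d) = d * (h * h) * star d := by simp only [mul_assoc]
    _ = 0 := by rw [hd, zero_mul]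

theorem sawStmt : SawStmt A := by
  intro k h g hk h0 g0 hhk hgk hhg
  have hsa : star h = h := (IsSelfAdjoint.of_nonneg h0).star_eq
  have gsa : star g = g := (IsSelfAdjoint.of_nonneg g0).star_eq
  have hgh : g * h = 0 := by
    have := congrArg star hhg
    rwa [star_mul, star_zero, hsa, gsa] at this
  have hle : star h * h ≤ star (h + g) * (h + g) := by
    have h1 : star (h + g) * (h + g) - star h * h = star g * g := by
      rw [star_add, hsa, gsa]
      simp only [mul_add, add_mul, hhg, hgh]
      abel
    rw [← sub_nonneg, h1]
    exact star_mul_self_nonneg g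
  obtain ⟨y, hy, hyw⟩ := hk (h + g) h (by rw [add_mul, hhk, hgk]) hle
  have e1 : (1 - y) * (h * h) = 0 := by
    have h1 : h * h = y * (h * h) := by
      calc h * h = y * (h + g) * h := by rw [← hyw]
        _ = y * (h * h) := by rw [mul_assoc, add_mul, hgh, add_zero]
    rw [sub_mul, one_mul, ← h1, sub_self]
  have e2 : y * h = h := by
    have := saw_kill hsa e1
    rw [sub_mul, one_mul, sub_eq_zero] at this
    exact this.symm
  have e3 : y * g = 0 := by
    apply saw_kill gsa
    calc y * (g * g) = y * (h + g) * g := by rw [mul_assoc, add_mul, hhg, zero_add]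
      _ = h * g := by rw [← hyw]
      _ = 0 := hhg
  have hyy : y * star y ≤ 1 := by
    rw [← CStarAlgebra.norm_le_one_iff_of_nonneg _ (mul_star_self_nonneg y),
      CStarRing.norm_self_mul_star]
    exact mul_le_one₀ hy (norm_nonneg _) hy
  have hyy' : star y * y ≤ 1 := by
    rw [← CStarAlgebra.norm_le_one_iff_of_nonneg _ (star_mul_self_nonneg y),
      CStarRing.norm_star_mul_self]
    exact mul_le_one₀ hy (norm_nonneg _) hy
  have e4 : h * y = h := by
    have h2 : h * star y = star (y * h) := by rw [star_mul, hsa]
    have h3 : h * (y * star y) * h ≤ h * h := by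
      have := star_left_conjugate_le_conjugate hyy h
      rwa [hsa, mul_one] at this
    have h4 : star (star (h * (1 - y))) * star (h * (1 - y)) = h * (y * star y) * h - h * h := by
      rw [star_star, star_mul, star_sub, star_one, hsa]
      have a1 : h * star y * h = h * h := by rw [h2, e2, hsa]
      have a2 : h * y * h = h * h := by rw [mul_assoc, e2]
      calc h * (1 - y) * ((1 - star y) * h)
          = h * h - h * y * h - h * star y * h + h * (y * star y) * h := by
            simp only [mul_sub, sub_mul, mul_one, one_mul, mul_assoc]
            abel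
        _ = h * (y * star y) * h - h * h := by
            rw [a1, a2]; abel
    have h5 : star (star (h * (1 - y))) * star (h * (1 - y)) = 0 := by
      apply le_antisymm
      · rw [h4]; exact sub_nonpos.mpr h3
      · exact star_mul_self_nonneg _
    rw [CStarRing.star_mul_self_eq_zero_iff, star_eq_zero, mul_sub, mul_one, sub_eq_zero] at h5
    exact h5.symm
  have e5 : star y * h = h := by
    have := congrArg star e4
    rwa [star_mul, hsa] at this
  refine ⟨star y * y, star_mul_self_nonneg y, hyy', ?_, ?_⟩
  · rw [mul_assoc, e2, e5]
  · rw [mul_assoc, e3, mul_zero]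

end Pool.Agent.Work.MP_3f690c_an.T3
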