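import Pool.Agent.Work.MP_3f690c_an.T3.Defs

/-!
# The factorisation theorem gives one step completions
-/

open scoped ComplexOrder

namespace Pool.Agent.Work.MP_3f690c_an.T3

universe u

namespace XSTEP

section
variable {A : Type u} [CStarAlgebra A]

theorem ip_add_left {n : ℕ} (v v' w : Fin n → A) : ip (v + v') w = ip v w + ip v' w := by
  unfold ip
  rw [← Finset.sum_add_distrib]
  refine Finset.sum_congr rfl fun l _ => ?_
  rw [Pi.add_apply, star_add, add_mul]

theorem ip_add_right {n : ℕ} (v w w' : Fin n → A) : ip v (w + w') = ip v w + ip v w' := by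
  unfold ip
  rw [← Finset.sum_add_distrib]
  refine Finset.sum_congr rfl fun l _ => ?_
  rw [Pi.add_apply, mul_add]

theorem ip_mul_right {n : ℕ} (v w : Fin n → A) (c : A) :
    ip v (fun l => w l * c) = ip v w * c := by
  unfold ip
  rw [Finset.sum_mul]
  refine Finset.sum_congr rfl fun l _ => ?_
  rw [mul_assoc]

theorem ip_mul_left {n : ℕ} (v w : Fin n → A) (c : A) :
    ip (fun l => v l * c) w = star c * ip v w := by
  unfold ip
  rw [Finset.mul_sum]
  refine Finset.sum_congr rfl fun l _ => ?_
  rw [star_mul, mul_assoc]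

theorem star_ip {n : ℕ} (v w : Fin n → A) : star (ip v w) = ip w v := by
  unfold ip
  rw [star_sum]
  refine Finset.sum_congr rfl fun l _ => ?_
  rw [star_mul, star_star]

end

section
variable {A : Type u} [CStarAlgebra A] [PartialOrder A] [StarOrderedRing A]

/-- equality of norms gives equality of inner products -/
theorem ip_eq_of {n p : ℕ} {T : (Fin n → A) → (Fin p → A)} (hT : IsContr T) {v : Fin n → A}
    (hv : ip (T v) (T v) = ip v v) (v' : Fin n → A) : ip (T v') (T v) = ip v' v := by
  set b : A := ip v' v - ip (T v') (T v) with hb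
  have hbs : star b = ip v v' - ip (T v) (T v') := by
    rw [hb, star_sub, star_ip, star_ip]
  have key : ∀ m : ℕ, (2 * m) • (b * star b) ≤ ip v' v' - ip (T v') (T v') := by
    intro m
    set c : A := -(m • star b) with hc
    have hcs : star c = -(m • b) := by rw [hc, star_neg, star_nsmul, star_star]
    have h1 := hT.le (v' + fun l => v l * c)
    rw [hT.map_add, hT.map_mul, ip_add_left, ip_add_right, ip_add_right, ip_add_left,
      ip_add_right, ip_add_right, ip_mul_right, ip_mul_right, ip_mul_left, ip_mul_left,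
      ip_mul_right, ip_mul_right, ip_mul_left, ip_mul_left, hv] at h1
    have h2 : (ip v' v' + ip v' v * c + (star c * ip v v' + star c * ip v v * c)) -
        (ip (T v') (T v') + ip (T v') (T v) * c +
          (star c * ip (T v) (T v') + star c * ip v v * c)) =
        (ip v' v' - ip (T v') (T v')) + b * c + star c * star b := by
      rw [hbs, hb]
      noncomm_ring
    have h3 := sub_nonneg.2 h1
    have h4 : (ip v' v' - ip (T v') (T v')) + b * c + star c * star b =
        (ip v' v' - ip (T v') (T v')) - (2 * m) • (b * star b) := by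
      rw [hcs, hc, mul_neg, neg_mul, mul_smul_comm, smul_mul_assoc, two_mul, add_smul]
      abel
    rw [← sub_nonneg, ← h4, ← h2]
    convert h3 using 2
  have h5 : b * star b = 0 := by
    by_contra hne
    have h6 : 0 < ‖b * star b‖ := norm_pos_iff.2 hne
    obtain ⟨m, hm⟩ := exists_nat_gt (‖ip v' v' - ip (T v') (T v')‖ / ‖b * star b‖)
    have h7 : (0 : A) ≤ (2 * m) • (b * star b) := nsmul_nonneg (mul_star_self_nonneg b) _
    have h8 := CStarAlgebra.norm_le_norm_of_nonneg_of_le h7 (key m)
    have h9 : ‖(2 * m) • (b * star b)‖ = (2 * m : ℕ) * ‖b * star b‖ := by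
      rw [← Nat.cast_smul_eq_nsmul ℝ, norm_smul, Real.norm_natCast]
    rw [h9] at h8
    rw [div_lt_iff₀ h6] at hm
    push_cast at h8
    have h10 : (m : ℝ) * ‖b * star b‖ ≥ 0 := by positivity
    nlinarith
  have h6 : b = 0 := CStarRing.mul_star_self_eq_zero_iff b |>.1 h5
  exact (sub_eq_zero.1 h6).symm

end

section

theorem exists_star_mul {B : Type u} [NonUnitalCStarAlgebra B] [PartialOrder B]
    [StarOrderedRing B] {M : B} (hM : 0 ≤ M) : ∃ C : B, M = star C * C :=
  CStarAlgebra.nonneg_iff_eq_star_mul_self.mp hM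

theorem toep_apply {A : Type u} (a : ℤ → A) (m : ℕ) (i j : Fin m) :
    toep a m i j = a ((i : ℤ) - (j : ℤ)) := rfl

end

section
variable {A : Type u} [CStarAlgebra A] [PartialOrder A] [StarOrderedRing A]

theorem main {k : ℕ} {a : ℤ → A} (S : Fin (k + 1) → Fin (k + 1) → A)
    (hS : ∀ i j : Fin (k + 1), ip (col S i) (col S j) = a ((i : ℤ) - (j : ℤ)))
    (v : Fin (k + 1) → A)
    (hv : ∀ j : Fin k, ip v (col S j.succ) = a ((k : ℤ) - (j : ℤ)))
    (hvv : ip v v ≤ a 0) :
    ∃ y : ℤ → A, (∀ l : ℤ, |l| < (k + 1 : ℕ) → y l = a l) ∧ 0 ≤ toep y (k + 1 + 1) := by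
  obtain ⟨r, hr⟩ := CStarAlgebra.nonneg_iff_eq_star_mul_self.1 (sub_nonneg.2 hvv)
  have hstar : ∀ l : ℤ, |l| < (k + 1 : ℕ) → star (a l) = a (-l) := by
    intro l hl
    rw [abs_lt] at hl
    push_cast at hl
    rcases le_total 0 l with h0 | h0
    · have h2 : l.toNat < k + 1 := by omega
      have h3 := hS (⟨l.toNat, h2⟩ : Fin (k + 1)) (0 : Fin (k + 1))
      have h4 := hS (0 : Fin (k + 1)) (⟨l.toNat, h2⟩ : Fin (k + 1))
      have h5 : ((l.toNat : ℕ) : ℤ) = l := Int.toNat_of_nonneg h0
      simp only [h5, Fin.val_zero, Nat.cast_zero, sub_zero, zero_sub] at h3 h4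
      rw [← h3, ← h4, star_ip]
    · have h2 : (-l).toNat < k + 1 := by omega
      have h3 := hS (⟨(-l).toNat, h2⟩ : Fin (k + 1)) (0 : Fin (k + 1))
      have h4 := hS (0 : Fin (k + 1)) (⟨(-l).toNat, h2⟩ : Fin (k + 1))
      have h5 : (((-l).toNat : ℕ) : ℤ) = -l := Int.toNat_of_nonneg (by omega)
      simp only [h5, Fin.val_zero, Nat.cast_zero, sub_zero, zero_sub, neg_neg] at h3 h4
      rw [← h3, ← h4, star_ip]
  classical
  set y : ℤ → A := fun l => if |l| < (k + 1 : ℕ) then a l else
    if l = (k + 1 : ℕ) then ip v (col S 0) else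
    if l = -((k + 1 : ℕ) : ℤ) then ip (col S 0) v else 0 with hy
  have hy1 : ∀ l : ℤ, |l| < (k + 1 : ℕ) → y l = a l := by
    intro l hl
    rw [hy]
    exact if_pos hl
  have hy2 : y ((k + 1 : ℕ) : ℤ) = ip v (col S 0) := by
    rw [hy]
    have h1 : ¬ |((k + 1 : ℕ) : ℤ)| < ((k + 1 : ℕ) : ℤ) := by
      rw [abs_of_nonneg (by positivity)]
      exact lt_irrefl _
    simp only [h1, if_false, if_true]
  have hy3 : y (-((k + 1 : ℕ) : ℤ)) = ip (col S 0) v := by
    rw [hy]
    have h1 : ¬ |(-((k + 1 : ℕ) : ℤ))| < ((k + 1 : ℕ) : ℤ) := by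
      rw [abs_neg, abs_of_nonneg (by positivity)]
      exact lt_irrefl _
    have h2 : ¬ (-((k + 1 : ℕ) : ℤ)) = ((k + 1 : ℕ) : ℤ) := by
      push_cast
      omega
    simp only [h1, h2, if_false, if_true]
  have hys : ∀ l : ℤ, |l| ≤ (k + 1 : ℕ) → star (y l) = y (-l) := by
    intro l hl
    rcases lt_or_eq_of_le hl with h1 | h1
    · rw [hy1 l h1, hy1 (-l) (by rwa [abs_neg]), hstar l h1]
    · rcases (abs_eq (by positivity)).1 h1 with h2 | h2
      · rw [h2, hy2, hy3, star_ip]
      · rw [h2, neg_neg, hy2, hy3, star_ip]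
  refine ⟨y, hy1, ?_⟩
  -- the last row
  have hlast : ∀ j : Fin (k + 1), ip v (col S j) = y (((k + 1 : ℕ) : ℤ) - (j : ℤ)) := by
    intro j
    refine Fin.cases ?_ (fun j => ?_) j
    · simp only [Fin.val_zero, Nat.cast_zero, sub_zero]
      rw [hy2]
    · have h1 : (((k + 1 : ℕ) : ℤ) - ((j.succ : Fin (k + 1)) : ℕ)) = (k : ℤ) - (j : ℤ) := by
        rw [Fin.val_succ]
        push_cast
        ring
      rw [hv j, h1, hy1]
      have := j.2
      rw [abs_of_nonneg (by omega)]
      push_cast
      omega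
  set rS : Fin (k + 1) → Fin (k + 1 + 1) → A := fun l =>
    Fin.snoc (α := fun _ => A) (fun i => S l i) (v l) with hrS
  set rR : Fin (k + 1 + 1) → A := Fin.snoc (α := fun _ => A) (fun _ => 0) r with hrR
  set Q0 : Fin (k + 1 + 1) → Fin (k + 1 + 1) → A :=
    Fin.snoc (α := fun _ => Fin (k + 1 + 1) → A) rS rR with hQ0
  set Q : CStarMatrix (Fin (k + 1 + 1)) (Fin (k + 1 + 1)) A :=
    CStarMatrix.ofMatrix (Matrix.of Q0) with hQ
  have hQQ : ∀ i j, (star Q * Q) i j = (∑ l, star (rS l i) * rS l j) + star (rR i) * rR j := by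
    intro i j
    have h1 : (star Q * Q) i j = ∑ l, star (Q0 l i) * Q0 l j := rfl
    rw [h1, Fin.sum_univ_castSucc]
    simp only [hQ0, Fin.snoc_castSucc, Fin.snoc_last]
  have hlc : ∀ j : Fin (k + 1), (star Q * Q) (Fin.last (k + 1)) j.castSucc =
      y (((k + 1 : ℕ) : ℤ) - (j : ℤ)) := by
    intro j
    rw [hQQ, ← hlast j]
    simp only [hrS, hrR, Fin.snoc_castSucc, Fin.snoc_last, mul_zero, add_zero]
    rfl
  have hsa : ∀ i j, (star Q * Q) i j = star ((star Q * Q) j i) := by
    intro i j
    rw [hQQ, hQQ, star_add, star_sum]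
    simp only [star_mul, star_star]
  have hmain : toep y (k + 1 + 1) = star Q * Q := by
    ext i j
    rw [toep_apply]
    refine Fin.lastCases ?_ (fun i => ?_) i
    · refine Fin.lastCases ?_ (fun j => ?_) j
      · rw [hQQ, sub_self, hy1 0 (by rw [abs_zero]; positivity)]
        simp only [hrS, hrR, Fin.snoc_last]
        rw [← hr]
        change a 0 = ip v v + (a 0 - ip v v)
        abel
      · rw [hlc]
        simp
    · refine Fin.lastCases ?_ (fun j => ?_) j
      · rw [hsa, hlc, hys _ (by
          have := i.2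
          rw [abs_of_nonneg (by omega)]
          omega)]
        congr 1
        simp
      · rw [hQQ]
        simp only [hrS, hrR, Fin.snoc_castSucc, star_zero, mul_zero, add_zero]
        have h1 := hS i j
        have := i.2
        have := j.2
        rw [hy1 _ (by
          rw [abs_lt]
          simp only [Fin.val_castSucc]
          push_cast
          constructor <;> omega)]
        exact h1.symm
  rw [hmain]
  exact star_mul_self_nonneg Q

end

end XSTEP

variable {A : Type u} [CStarAlgebra A] [PartialOrder A] [StarOrderedRing A]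

theorem stepProp_of_mat (h : MatStmt A) (k : ℕ) : StepProp A (k + 1) := by
  intro a ha
  obtain ⟨S, hS⟩ := XSTEP.exists_star_mul ha
  have hS' : ∀ i j : Fin (k + 1), ip (col (fun l i => S l i) i) (col (fun l i => S l i) j) =
      a ((i : ℤ) - (j : ℤ)) := by
    intro i j
    rw [← XSTEP.toep_apply a (k + 1) i j, hS]
    rfl
  obtain ⟨T, hT, hTc⟩ := h (k + 1) (k + 1) k (fun l i => S l i.castSucc) (fun l i => S l i.succ) (by
    intro i j
    have h1 := hS' i.castSucc j.castSucc
    have h2 := hS' i.succ j.succ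
    change ip (col (fun l i => S l i) i.castSucc) (col (fun l i => S l i) j.castSucc) =
      ip (col (fun l i => S l i) i.succ) (col (fun l i => S l i) j.succ)
    rw [h1, h2]
    congr 1
    simp)
  have hTc' : ∀ i : Fin k, T (col (fun l i => S l i) i.castSucc) =
      col (fun l i => S l i) i.succ := hTc
  refine XSTEP.main (fun l i => S l i) hS' (T (col (fun l i => S l i) (Fin.last k))) ?_ ?_
  · intro j
    rw [← hTc' j, XSTEP.ip_eq_of hT, hS']
    · congr 1
    · rw [hTc' j, hS', hS']
      congr 1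
      simp
  · refine (hT.le _).trans (le_of_eq ?_)
    rw [hS']
    congr 1
    simp

end Pool.Agent.Work.MP_3f690c_an.T3
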