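import Pool.Agent.Work.MP_3f690c_an.T3.Defs
import Pool.Agent.Work.MP_3f690c_an.Necess

open scoped ComplexOrder

namespace Pool.Agent.Work.MP_3f690c_an.T3

universe u

variable {A : Type u} [CStarAlgebra A] [PartialOrder A] [StarOrderedRing A]

private lemma toep_aux_le {y g b H : A} (hg : star g = g) (hy : star y * y ≤ b * b)
    (hbH : b * b ≤ H) (hgHg : g * H * g = 1) : ‖y * g‖ ≤ 1 := by
  have h1 : star (y * g) * (y * g) ≤ 1 := by
    have h2 : star g * (star y * y) * g ≤ star g * H * g :=
      star_left_conjugate_le_conjugate (hy.trans hbH) g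
    rw [hg, hgHg] at h2
    calc star (y * g) * (y * g) = g * (star y * y) * g := by
          rw [star_mul, hg]; simp only [mul_assoc]
      _ ≤ 1 := h2
  have h3 : ‖star (y * g) * (y * g)‖ ≤ 1 := by
    have h4 := CStarAlgebra.norm_le_norm_of_nonneg_of_le (star_mul_self_nonneg (y * g)) h1
    refine h4.trans ?_
    rcases subsingleton_or_nontrivial A with hs | hs
    · rw [Subsingleton.elim (1 : A) 0, norm_zero]; exact zero_le_one
    · rw [CStarRing.norm_one]
  rw [CStarRing.norm_star_mul_self] at h3
  nlinarith [norm_nonneg (y * g)]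

private lemma toep_eps (e b x w : A) (a : ℤ → A) (he : 0 ≤ e) (hb : 0 ≤ b) (heb : e * b = 0)
    (hex : e * x = x) (hxe : x * e = 0) (hew : e * w = w) (hwe : w * e = 0)
    (hx : star x * x ≤ b * b) (hw : star w * w ≤ b * b) (ε : ℝ) (hε : 0 < ε)
    (h0 : a 0 = e * e + b * b + algebraMap ℝ A ε)
    (h1 : a 1 = x + star w) (h2 : a (-1) = star x + w) : 0 ≤ toep a 2 := by
  have hes : star e = e := (IsSelfAdjoint.of_nonneg he)
  have hbs : star b = b := (IsSelfAdjoint.of_nonneg hb)
  have hbe : b * e = 0 := by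
    have := congrArg star heb
    rwa [star_mul, hes, hbs, star_zero] at this
  set H : A := e * e + b * b + algebraMap ℝ A ε with hH
  have hee0 : 0 ≤ e * e := by
    have := star_mul_self_nonneg e
    rwa [hes] at this
  have hbb0 : 0 ≤ b * b := by
    have := star_mul_self_nonneg b
    rwa [hbs] at this
  have hε0 : (0 : A) ≤ algebraMap ℝ A ε := by
    rw [Algebra.algebraMap_eq_smul_one]
    have h5 : (ε • (1 : A)) = star (Real.sqrt ε • (1 : A)) * (Real.sqrt ε • (1 : A)) := by
      rw [star_smul, smul_mul_smul_comm, star_trivial (Real.sqrt ε), star_one,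
        Real.mul_self_sqrt hε.le, one_mul]
    rw [h5]
    exact star_mul_self_nonneg _
  have hH0 : 0 ≤ H := add_nonneg (add_nonneg hee0 hbb0) hε0
  have hεH : algebraMap ℝ A ε ≤ H := by
    rw [hH]
    exact le_add_of_nonneg_left (add_nonneg hee0 hbb0)
  have hHu : IsUnit H := by
    have hu : IsUnit (algebraMap ℝ A ε) := (IsUnit.mk0 ε hε.ne').map (algebraMap ℝ A)
    exact CStarAlgebra.isUnit_of_le _ hεH (hu.isStrictlyPositive hε0)
  have hehe : e * e ≤ H := by
    rw [hH, add_assoc]
    exact le_add_of_nonneg_right (add_nonneg hbb0 hε0)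
  have hbhb : b * b ≤ H := by
    rw [hH, add_comm (e * e), add_assoc]
    exact le_add_of_nonneg_right (add_nonneg hee0 hε0)
  set h : A := CFC.sqrt H with hh
  have hh0 : 0 ≤ h := CFC.sqrt_nonneg H
  have hhs : star h = h := IsSelfAdjoint.of_nonneg hh0
  have hhh : h * h = H := CFC.sqrt_mul_sqrt_self H hH0
  have hhu : IsUnit h := by
    have : IsUnit (h * h) := by rw [hhh]; exact hHu
    exact ((Commute.refl h).isUnit_mul_iff.1 this).1
  obtain ⟨U, hU⟩ := hhu
  set g : A := ((U⁻¹ : Aˣ) : A) with hg
  have hgh : g * h = 1 := by rw [← hU, hg]; exact U.inv_mul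
  have hhg : h * g = 1 := by rw [← hU, hg]; exact U.mul_inv
  have hgs : star g = g := by
    have h5 : star g * h = 1 := by
      have := congrArg star hhg
      rwa [star_mul, hhs, star_one] at this
    calc star g = star g * (h * g) := by rw [hhg, mul_one]
      _ = (star g * h) * g := by rw [mul_assoc]
      _ = g := by rw [h5, one_mul]
  have hgHg : g * H * g = 1 := by
    rw [← hhh, ← mul_assoc g h h, hgh, one_mul, hhg]
  -- `g * g` is the inverse of `H`, it commutes with `e`
  have hHgg : H * (g * g) = 1 := by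
    rw [← hhh, mul_assoc h h, ← mul_assoc h g g, hhg, one_mul, hhg]
  have hggH : (g * g) * H = 1 := by
    rw [← hhh, mul_assoc g g, ← mul_assoc g h h, hgh, one_mul, hgh]
  have heH : e * H = H * e := by
    rw [hH, mul_add, mul_add, add_mul, add_mul, ← mul_assoc e b b, heb, zero_mul,
      mul_assoc b b e, hbe, mul_zero, Algebra.commutes ε e, mul_assoc]
  have hegg : e * (g * g) = (g * g) * e := by
    calc e * (g * g) = ((g * g) * H) * (e * (g * g)) := by rw [hggH, one_mul]
      _ = (g * g) * (H * e) * (g * g) := by simp only [mul_assoc]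
      _ = (g * g) * (e * H) * (g * g) := by rw [heH]
      _ = (g * g) * e * (H * (g * g)) := by simp only [mul_assoc]
      _ = (g * g) * e := by rw [hHgg, mul_one]
  have hews : e * star w = 0 := by
    have := congrArg star hwe
    rwa [star_mul, hes, star_zero] at this
  have hxs : star x * e = star x := by
    have := congrArg star hex
    rwa [star_mul, hes] at this
  set A1 : A := g * x * g with hA1
  set A2 : A := g * star w * g with hA2
  have o1 : star A1 * A2 = 0 := by
    calc star A1 * A2 = g * (star x * (g * g) * star w) * g := by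
          rw [hA1, hA2, star_mul, star_mul, hgs]; simp only [mul_assoc]
      _ = g * (star x * (e * (g * g)) * star w) * g := by
          conv_lhs => rw [← hxs]
          simp only [mul_assoc]
      _ = g * (star x * (g * g) * (e * star w)) * g := by
          rw [hegg]; simp only [mul_assoc]
      _ = 0 := by rw [hews]; simp
  have o2 : A1 * star A2 = 0 := by
    calc A1 * star A2 = g * (x * (g * g) * w) * g := by
          rw [hA1, hA2, star_mul, star_mul, hgs, star_star]; simp only [mul_assoc]
      _ = g * (x * ((g * g) * e) * w) * g := by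
          conv_lhs => rw [← hew]
          simp only [mul_assoc]
      _ = g * ((x * e) * (g * g) * w) * g := by
          rw [← hegg]; simp only [mul_assoc]
      _ = 0 := by rw [hxe]; simp
  have n0 : ‖g * e‖ ≤ 1 := by
    have h5 : ‖e * g‖ ≤ 1 := toep_aux_le hgs (by rw [hes]) hehe hgHg
    have h6 : star (g * e) = e * g := by rw [star_mul, hgs, hes]
    rw [← norm_star (g * e), h6]
    exact h5
  have n1 : ‖A1‖ ≤ 1 := by
    have h5 : A1 = (g * e) * (x * g) := by
      rw [hA1]
      conv_lhs => rw [← hex]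
      simp only [mul_assoc]
    rw [h5]
    calc ‖(g * e) * (x * g)‖ ≤ ‖g * e‖ * ‖x * g‖ := norm_mul_le _ _
      _ ≤ 1 * 1 := mul_le_mul n0 (toep_aux_le hgs hx hbhb hgHg) (norm_nonneg _) zero_le_one
      _ = 1 := one_mul 1
  have n2 : ‖A2‖ ≤ 1 := by
    have h5 : star A2 = (g * e) * (w * g) := by
      rw [hA2, star_mul, star_mul, hgs, star_star]
      conv_lhs => rw [← hew]
      simp only [mul_assoc]
    rw [← norm_star A2, h5]
    calc ‖(g * e) * (w * g)‖ ≤ ‖g * e‖ * ‖w * g‖ := norm_mul_le _ _
      _ ≤ 1 * 1 := mul_le_mul n0 (toep_aux_le hgs hw hbhb hgHg) (norm_nonneg _) zero_le_one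
      _ = 1 := one_mul 1
  have nK : ‖A1 + A2‖ ≤ 1 := Necess.norm_add_le_one o1 o2 n1 n2
  have hK : h * (A1 + A2) * h = x + star w := by
    have h5 : ∀ y : A, h * (g * y * g) * h = y := by
      intro y
      calc h * (g * y * g) * h = (h * g) * y * (g * h) := by simp only [mul_assoc]
        _ = y := by rw [hhg, hgh, one_mul, mul_one]
    rw [mul_add, add_mul, hA1, hA2, h5, h5]
  refine Necess.toep_two_nonneg h (A1 + A2) hhs nK a (by rw [h0, hhh]) (by rw [h1, hK]) ?_
  rw [h2]
  have h6 := congrArg star hK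
  rw [star_mul, star_mul, hhs, star_add x (star w), star_star] at h6
  rw [← h6, mul_assoc]

theorem toepDiag : ToepDiag A := by
  intro e b x w a he hb heb hex hxe hew hwe hx hw h0 h1 h2
  have key : ∀ ε : ℝ, 0 < ε → 0 ≤ toep a 2 + ε • (1 : CStarMatrix (Fin 2) (Fin 2) A) := by
    intro ε hε
    let a' : ℤ → A := fun l => if l = 0 then a 0 + algebraMap ℝ A ε else a l
    have h3 : 0 ≤ toep a' 2 := by
      refine toep_eps e b x w a' he hb heb hex hxe hew hwe hx hw ε hε ?_ ?_ ?_
      · show (if (0 : ℤ) = 0 then a 0 + algebraMap ℝ A ε else a 0) = _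
        rw [if_pos rfl, h0]
      · show (if (1 : ℤ) = 0 then a 0 + algebraMap ℝ A ε else a 1) = _
        rw [if_neg (by norm_num), h1]
      · show (if (-1 : ℤ) = 0 then a 0 + algebraMap ℝ A ε else a (-1)) = _
        rw [if_neg (by norm_num), h2]
    have h4 : toep a' 2 = toep a 2 + ε • (1 : CStarMatrix (Fin 2) (Fin 2) A) := by
      ext i j
      fin_cases i <;> fin_cases j <;>
        simp [toep, a', Algebra.algebraMap_eq_smul_one, CStarMatrix.one_apply]
    rwa [h4] at h3
  have hlim : Filter.Tendsto (fun ε : ℝ => toep a 2 + ε • (1 : CStarMatrix (Fin 2) (Fin 2) A))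
      (nhdsWithin 0 (Set.Ioi 0)) (nhds (toep a 2)) := by
    have h5 : Filter.Tendsto (fun ε : ℝ => toep a 2 + ε • (1 : CStarMatrix (Fin 2) (Fin 2) A))
        (nhds 0) (nhds (toep a 2 + (0 : ℝ) • (1 : CStarMatrix (Fin 2) (Fin 2) A))) :=
      tendsto_const_nhds.add (Filter.tendsto_id.smul_const _)
    rw [zero_smul, add_zero] at h5
    exact h5.mono_left nhdsWithin_le_nhds
  refine ge_of_tendsto hlim ?_
  filter_upwards [self_mem_nhdsWithin] with ε hε
  exact key ε hε

end Pool.Agent.Work.MP_3f690c_an.T3
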