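import Pool.Agent.Work.MP_3f690c_an.T3.Defs

/-!
# Unit decomposition
-/

open scoped ComplexOrder

namespace Pool.Agent.Work.MP_3f690c_an.T3

universe u

variable {A : Type u} [CStarAlgebra A] [PartialOrder A] [StarOrderedRing A]

namespace XUNIT

/-- final segment -/
noncomputable def fF (d t : ℝ) : ℝ := max (t - d) 0

/-- cut-off inverse of the final segment -/
noncomputable def gF (d t : ℝ) : ℝ := 1 / max (t - d) d

lemma cont_f (d : ℝ) : Continuous (fF d) := by
  unfold fF
  exact (continuous_id.sub continuous_const).max continuous_const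

lemma cont_g {d : ℝ} (hd : 0 < d) : Continuous (gF d) := by
  unfold gF
  apply Continuous.div continuous_const
  · exact (continuous_id.sub continuous_const).max continuous_const
  · intro t
    exact (lt_of_lt_of_le hd (le_max_right _ _)).ne'

lemma fg_nonneg {d : ℝ} (hd : 0 < d) (t : ℝ) : 0 ≤ fF d t * gF d t := by
  unfold fF gF
  have h1 : 0 ≤ max (t - d) 0 := le_max_right _ _
  have h2 : 0 < max (t - d) d := lt_of_lt_of_le hd (le_max_right _ _)
  positivity

lemma fg_le {d : ℝ} (hd : 0 < d) (t : ℝ) : fF d t * gF d t ≤ 1 := by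
  unfold fF gF
  have h2 : 0 < max (t - d) d := lt_of_lt_of_le hd (le_max_right _ _)
  rw [mul_one_div, div_le_one h2]
  exact max_le_max le_rfl hd.le

lemma fg_one {d : ℝ} (hd : 0 < d) {t : ℝ} (ht : 2 * d ≤ t) : fF d t * gF d t = 1 := by
  unfold fF gF
  rw [max_eq_left (by linarith), max_eq_left (by linarith)]
  have : t - d ≠ 0 := by linarith
  field_simp

lemma bound {d : ℝ} (hd : 0 < d) {t : ℝ} (ht : 0 ≤ t) :
    ‖(1 - fF d t * gF d t) * (t * (1 - fF d t * gF d t))‖ ≤ 2 * d := by
  have h0 := fg_nonneg hd t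
  have h1 := fg_le hd t
  rw [Real.norm_eq_abs, abs_of_nonneg (by
    have : 0 ≤ 1 - fF d t * gF d t := by linarith
    positivity)]
  rcases le_total t (2 * d) with h | h
  · have h2 : 0 ≤ 1 - fF d t * gF d t := by linarith
    have h3 : 1 - fF d t * gF d t ≤ 1 := by linarith
    calc (1 - fF d t * gF d t) * (t * (1 - fF d t * gF d t))
        ≤ 1 * (t * 1) := by
          apply mul_le_mul h3 _ (by positivity) zero_le_one
          exact mul_le_mul_of_nonneg_left h3 ht
      _ ≤ 2 * d := by linarith
  · rw [fg_one hd h]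
    simp only [sub_self, zero_mul]
    positivity

/-- cutting off near zero changes `z` only a little -/
lemma norm_cut (z : A) {d : ℝ} (hd : 0 < d) :
    ‖z * (1 - cfc (fun t : ℝ => fF d t * gF d t) (star z * z))‖ ≤ √(2 * d) := by
  have hsa : IsSelfAdjoint (star z * z) := IsSelfAdjoint.star_mul_self z
  have hpos : (0 : A) ≤ star z * z := star_mul_self_nonneg z
  have hcf := cont_f d
  have hcg := cont_g hd
  have hcfg : Continuous (fun t : ℝ => fF d t * gF d t) := hcf.mul hcg
  set p : A := star z * z with hp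
  have e1 : 1 - cfc (fun t : ℝ => fF d t * gF d t) p =
      cfc (fun t : ℝ => 1 - fF d t * gF d t) p := by
    rw [cfc_sub (fun _ : ℝ => (1 : ℝ)) (fun t : ℝ => fF d t * gF d t) p
      continuousOn_const hcfg.continuousOn, cfc_const_one ℝ p]
  have hsa2 : IsSelfAdjoint (cfc (fun t : ℝ => 1 - fF d t * gF d t) p) := cfc_predicate _ p
  have e2 : star (z * cfc (fun t : ℝ => 1 - fF d t * gF d t) p) *
      (z * cfc (fun t : ℝ => 1 - fF d t * gF d t) p) =
      cfc (fun t : ℝ => (1 - fF d t * gF d t) * (t * (1 - fF d t * gF d t))) p := by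
    have hc1 : Continuous (fun t : ℝ => 1 - fF d t * gF d t) := continuous_const.sub hcfg
    have hc2 : Continuous (fun t : ℝ => t * (1 - fF d t * gF d t)) := continuous_id.mul hc1
    rw [cfc_mul (fun t : ℝ => 1 - fF d t * gF d t) (fun t : ℝ => t * (1 - fF d t * gF d t)) p
      hc1.continuousOn hc2.continuousOn,
      cfc_mul (fun t : ℝ => t) (fun t : ℝ => 1 - fF d t * gF d t) p
      continuousOn_id hc1.continuousOn, cfc_id' ℝ p, star_mul, hsa2.star_eq, hp]
    simp only [mul_assoc]
  rw [e1]
  apply Real.le_sqrt_of_sq_le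
  rw [sq, ← CStarRing.norm_star_mul_self, e2]
  apply norm_cfc_le (by positivity)
  intro t ht
  exact bound hd (spectrum_nonneg_of_nonneg hpos ht)

/-- Cauchy-Schwarz in the easy form -/
lemma star_sum_mul_sum_le {m : ℕ} (X : Fin m → A) :
    star (∑ i, X i) * (∑ i, X i) ≤ (m : ℝ) • ∑ i, star (X i) * X i := by
  have h1 : (0 : A) ≤ ∑ i, ∑ j, star (X i - X j) * (X i - X j) :=
    Finset.sum_nonneg fun i _ => Finset.sum_nonneg fun j _ => star_mul_self_nonneg _
  have h2 : ∑ i, ∑ j, star (X i - X j) * (X i - X j) =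
      (2 : ℝ) • ((m : ℝ) • ∑ i, star (X i) * X i - star (∑ i, X i) * (∑ i, X i)) := by
    have e : ∀ i j, star (X i - X j) * (X i - X j) =
        star (X i) * X i - star (X i) * X j - star (X j) * X i + star (X j) * X j := by
      intro i j
      rw [star_sub]
      noncomm_ring
    simp only [e, Finset.sum_add_distrib, Finset.sum_sub_distrib]
    have a1 : ∑ i : Fin m, ∑ _j : Fin m, star (X i) * X i = (m : ℝ) • ∑ i, star (X i) * X i := by
      simp only [Finset.sum_const, Finset.card_univ, Fintype.card_fin]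
      rw [Finset.smul_sum]
      apply Finset.sum_congr rfl
      intro i _
      rw [Nat.cast_smul_eq_nsmul]
    have a2 : ∑ _i : Fin m, ∑ j : Fin m, star (X j) * X j = (m : ℝ) • ∑ i, star (X i) * X i := by
      simp only [Finset.sum_const, Finset.card_univ, Fintype.card_fin]
      rw [Nat.cast_smul_eq_nsmul]
    have a3 : ∑ i : Fin m, ∑ j : Fin m, star (X i) * X j = star (∑ i, X i) * (∑ i, X i) := by
      rw [star_sum, Finset.sum_mul]
      apply Finset.sum_congr rfl
      intro i _
      rw [Finset.mul_sum]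
    have a4 : ∑ i : Fin m, ∑ j : Fin m, star (X j) * X i = star (∑ i, X i) * (∑ i, X i) := by
      rw [Finset.sum_comm, ← a3]
    rw [a1, a2, a3, a4, two_smul]
    abel
  rw [h2] at h1
  have h3 := smul_nonneg (by norm_num : (0 : ℝ) ≤ 2⁻¹) h1
  have h4 : (2⁻¹ * 2 : ℝ) = 1 := by norm_num
  rw [smul_smul, h4, one_smul] at h3
  exact sub_nonneg.mp h3

lemma am_mono {r s : ℝ} (h : r ≤ s) : algebraMap ℝ A r ≤ algebraMap ℝ A s := by
  rw [Algebra.algebraMap_eq_smul_one, Algebra.algebraMap_eq_smul_one]
  have h1 : (0 : A) ≤ 1 := by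
    have h2 := star_mul_self_nonneg (1 : A)
    rw [star_one, one_mul] at h2
    exact h2
  exact smul_le_smul_of_nonneg_right h h1

omit [PartialOrder A] [StarOrderedRing A] in
lemma smul_am (r s : ℝ) : r • algebraMap ℝ A s = algebraMap ℝ A (r * s) := by
  rw [Algebra.algebraMap_eq_smul_one, Algebra.algebraMap_eq_smul_one, smul_smul]

/-- a positive element which is bounded below can be normalised -/
lemma exists_normaliser (T : A) (c0 : ℝ) (hc0 : 0 < c0) (hT : IsSelfAdjoint T)
    (h : algebraMap ℝ A c0 ≤ T) : ∃ R : A, star R = R ∧ R * T * R = 1 := by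
  have hspec : ∀ x ∈ spectrum ℝ T, c0 ≤ x := (algebraMap_le_iff_le_spectrum (a := T)).mp h
  have hcont : Continuous (fun t : ℝ => 1 / √(max t c0)) := by
    apply Continuous.div continuous_const
    · exact (continuous_id.max continuous_const).sqrt
    · intro t
      exact (Real.sqrt_pos.mpr (lt_of_lt_of_le hc0 (le_max_right _ _))).ne'
  have hsa : IsSelfAdjoint (cfc (fun t : ℝ => 1 / √(max t c0)) T) := cfc_predicate _ T
  refine ⟨cfc (fun t : ℝ => 1 / √(max t c0)) T, hsa.star_eq, ?_⟩
  have e1 : cfc (fun t : ℝ => 1 / √(max t c0)) T * T * cfc (fun t : ℝ => 1 / √(max t c0)) T =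
      cfc (fun t : ℝ => 1 / √(max t c0) * t * (1 / √(max t c0))) T := by
    rw [cfc_mul (fun t : ℝ => 1 / √(max t c0) * t) (fun t : ℝ => 1 / √(max t c0)) T
      (hcont.mul continuous_id).continuousOn hcont.continuousOn,
      cfc_mul (fun t : ℝ => 1 / √(max t c0)) (fun t : ℝ => t) T hcont.continuousOn
      continuousOn_id, cfc_id' ℝ T]
  rw [e1, ← cfc_const_one ℝ T]
  apply cfc_congr
  intro t ht
  have ht2 := hspec t ht
  have ht3 : 0 < t := by linarith
  show 1 / √(max t c0) * t * (1 / √(max t c0)) = 1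
  rw [max_eq_left ht2]
  have hs : √t ≠ 0 := (Real.sqrt_pos.mpr ht3).ne'
  field_simp
  exact (Real.sq_sqrt ht3.le).symm

end XUNIT

open XUNIT in
theorem unitStmt : UnitStmt A := by
  intro m b z c hsum
  set K : ℝ := ∑ i, ‖b i‖ * ‖c i‖ with hK
  have hK0 : 0 ≤ K := Finset.sum_nonneg fun i _ => by positivity
  set d : ℝ := 1 / (32 * (K + 1) ^ 2) with hd
  have hd0 : 0 < d := by positivity
  have hsq : √(2 * d) = 1 / (4 * (K + 1)) := by
    have h1 : 2 * d = (1 / (4 * (K + 1))) ^ 2 := by
      rw [hd]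
      have : K + 1 ≠ 0 := by positivity
      field_simp
      norm_num
    rw [h1, Real.sqrt_sq (by positivity)]
  set p : Fin m → A := fun i => star (z i) * z i with hp
  set F : Fin m → A := fun i => cfc (fF d) (p i) with hF
  set G : Fin m → A := fun i => cfc (gF d) (p i) with hG
  have hGF : ∀ i, G i * F i = cfc (fun t : ℝ => fF d t * gF d t) (p i) := by
    intro i
    have e : (fun t : ℝ => fF d t * gF d t) = fun t : ℝ => gF d t * fF d t := by
      funext t
      ring
    rw [e, cfc_mul (gF d) (fF d) (p i) (cont_g hd0).continuousOn (cont_f d).continuousOn]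
  set B : Fin m → A := fun i => b i * z i * G i with hB
  set C : Fin m → A := fun i => F i * c i with hC
  set S : A := ∑ i, B i * C i with hS
  have h1S : 1 - S = ∑ i, b i * (z i * (1 - G i * F i)) * c i := by
    have h0 : 1 - S = (∑ i, b i * z i * c i) - S := by rw [hsum]
    rw [h0, hS, ← Finset.sum_sub_distrib]
    apply Finset.sum_congr rfl
    intro i _
    simp only [hB, hC]
    noncomm_ring
  have hnorm : ‖1 - S‖ ≤ 1 / 4 := by
    rw [h1S]
    calc ‖∑ i, b i * (z i * (1 - G i * F i)) * c i‖
        ≤ ∑ i, ‖b i * (z i * (1 - G i * F i)) * c i‖ := norm_sum_le _ _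
      _ ≤ ∑ i, (‖b i‖ * ‖c i‖) * √(2 * d) := by
          apply Finset.sum_le_sum
          intro i _
          have h1 : ‖z i * (1 - G i * F i)‖ ≤ √(2 * d) := by
            rw [hGF i]
            exact norm_cut (z i) hd0
          calc ‖b i * (z i * (1 - G i * F i)) * c i‖
              ≤ ‖b i * (z i * (1 - G i * F i))‖ * ‖c i‖ := norm_mul_le _ _
            _ ≤ (‖b i‖ * ‖z i * (1 - G i * F i)‖) * ‖c i‖ :=
                mul_le_mul_of_nonneg_right (norm_mul_le _ _) (norm_nonneg _)
            _ ≤ (‖b i‖ * √(2 * d)) * ‖c i‖ :=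
                mul_le_mul_of_nonneg_right (mul_le_mul_of_nonneg_left h1 (norm_nonneg _))
                  (norm_nonneg _)
            _ = (‖b i‖ * ‖c i‖) * √(2 * d) := by ring
      _ = K * √(2 * d) := by rw [← Finset.sum_mul]
      _ ≤ 1 / 4 := by
          rw [hsq, mul_one_div, div_le_div_iff₀ (by positivity) (by norm_num)]
          linarith
  set T : A := ∑ i, star (C i) * C i with hT
  have hT0 : 0 ≤ T := Finset.sum_nonneg fun i _ => star_mul_self_nonneg _
  -- S^* S is at most a multiple of T
  set q : ℝ := m * (∑ j, ‖star (B j) * B j‖) + 1 with hq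
  have hM0 : 0 ≤ ∑ j, ‖star (B j) * B j‖ := Finset.sum_nonneg fun j _ => norm_nonneg _
  have hq0 : 0 < q := by positivity
  have hSS : star S * S ≤ q • T := by
    have h1 : star S * S ≤ (m : ℝ) • ∑ i, star (B i * C i) * (B i * C i) :=
      star_sum_mul_sum_le fun i => B i * C i
    have h2 : ∑ i, star (B i * C i) * (B i * C i) ≤ (∑ j, ‖star (B j) * B j‖) • T := by
      rw [hT, Finset.smul_sum]
      apply Finset.sum_le_sum
      intro i _
      have h3 : star (C i) * (star (B i) * B i) * C i ≤ ‖star (B i) * B i‖ • (star (C i) * C i) :=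
        CStarAlgebra.star_left_conjugate_le_norm_smul (IsSelfAdjoint.star_mul_self (B i))
      have h4 : star (B i * C i) * (B i * C i) = star (C i) * (star (B i) * B i) * C i := by
        rw [star_mul]
        simp only [mul_assoc]
      rw [h4]
      refine h3.trans ?_
      apply smul_le_smul_of_nonneg_right _ (star_mul_self_nonneg _)
      exact Finset.single_le_sum (f := fun j => ‖star (B j) * B j‖) (fun j _ => norm_nonneg _)
        (Finset.mem_univ i)
    calc star S * S ≤ (m : ℝ) • ∑ i, star (B i * C i) * (B i * C i) := h1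
      _ ≤ (m : ℝ) • ((∑ j, ‖star (B j) * B j‖) • T) := smul_le_smul_of_nonneg_left h2 (by positivity)
      _ = (m * (∑ j, ‖star (B j) * B j‖)) • T := by rw [smul_smul]
      _ ≤ q • T := smul_le_smul_of_nonneg_right (by rw [hq]; linarith) hT0
  -- 1 is at most 1/8 + 2 S^* S
  have hone : (1 : A) ≤ algebraMap ℝ A (1 / 8) + (2 : ℝ) • (star S * S) := by
    have h1 := star_sum_mul_sum_le (A := A) (m := 2) (fun i => if i = 0 then 1 - S else S)
    simp only [Fin.sum_univ_two, if_true, Fin.one_eq_zero_iff, OfNat.ofNat_ne_one, if_false,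
      sub_add_cancel, star_one, mul_one, Nat.cast_ofNat] at h1
    have h2 : star (1 - S) * (1 - S) ≤ algebraMap ℝ A (1 / 16) := by
      refine CStarAlgebra.star_mul_le_algebraMap_norm_sq.trans ?_
      apply am_mono
      nlinarith [norm_nonneg (1 - S)]
    have h3 : (2 : ℝ) • (star (1 - S) * (1 - S)) ≤ algebraMap ℝ A (1 / 8) := by
      have h4 := smul_le_smul_of_nonneg_left h2 (by norm_num : (0 : ℝ) ≤ 2)
      refine h4.trans (le_of_eq ?_)
      rw [smul_am]
      norm_num
    rw [smul_add] at h1
    exact h1.trans (add_le_add_left h3 _)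
  have hTlow : algebraMap ℝ A (7 / (16 * q)) ≤ T := by
    have h1 : (1 : A) ≤ algebraMap ℝ A (1 / 8) + (2 : ℝ) • (q • T) :=
      hone.trans (add_le_add_right (smul_le_smul_of_nonneg_left hSS (by norm_num)) _)
    have h2 : algebraMap ℝ A (7 / 8) ≤ (2 * q) • T := by
      have h3 : algebraMap ℝ A (7 / 8) = 1 - algebraMap ℝ A (1 / 8) := by
        rw [← map_one (algebraMap ℝ A), ← map_sub]
        norm_num
      rw [h3, sub_le_iff_le_add', ← smul_smul]
      exact h1
    have h4 := smul_le_smul_of_nonneg_left h2 (by positivity : (0 : ℝ) ≤ 1 / (2 * q))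
    rw [smul_am, smul_smul] at h4
    have h5 : 1 / (2 * q) * (2 * q) = 1 := by field_simp
    have h6 : 1 / (2 * q) * (7 / 8) = 7 / (16 * q) := by
      field_simp
      norm_num
    rw [h5, h6, one_smul] at h4
    exact h4
  obtain ⟨R, hR1, hR2⟩ := exists_normaliser T (7 / (16 * q)) (by positivity)
    (IsSelfAdjoint.of_nonneg hT0) hTlow
  refine ⟨d, fun i => C i * R, hd0, ?_, fun i => ⟨c i * R, ?_⟩⟩
  · have h1 : ∀ i, star (C i * R) * (C i * R) = R * (star (C i) * C i) * R := by
      intro i
      rw [star_mul, hR1]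
      simp only [mul_assoc]
    simp only [h1]
    rw [← Finset.sum_mul, ← Finset.mul_sum]
    exact hR2
  · show F i * c i * R = tail d (star (z i) * z i) * (c i * R)
    rw [mul_assoc]
    rfl

end Pool.Agent.Work.MP_3f690c_an.T3
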