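import Pool.Agent.Work.MP_3f690c_an.T3.Defs

/-!
# Matrix algebras: the Douglas property passes to matrix algebras; they have no characters
-/

open scoped ComplexOrder

namespace Pool.Agent.Work.MP_3f690c_an.T3

universe u

namespace MatrixAux

theorem exists_star_mul {B : Type u} [NonUnitalCStarAlgebra B] [PartialOrder B]
    [StarOrderedRing B] {M : B} (hM : 0 ≤ M) : ∃ C : B, M = star C * C :=
  CStarAlgebra.nonneg_iff_eq_star_mul_self.mp hM

section
variable {A : Type u} [CStarAlgebra A] [PartialOrder A] [StarOrderedRing A]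

theorem IsContr.zero {n p : ℕ} {T : (Fin n → A) → (Fin p → A)} (hT : IsContr T) : T 0 = 0 := by
  have h := hT.map_add 0 0
  rw [add_zero] at h
  exact left_eq_add.1 h

theorem IsContr.sum {n p : ℕ} {T : (Fin n → A) → (Fin p → A)} (hT : IsContr T) {ι : Type}
    (s : Finset ι) (f : ι → Fin n → A) : T (∑ i ∈ s, f i) = ∑ i ∈ s, T (f i) := by
  classical
  induction s using Finset.induction_on with
  | empty => rw [Finset.sum_empty, Finset.sum_empty, IsContr.zero hT]
  | insert a s ha ih => rw [Finset.sum_insert ha, Finset.sum_insert ha, hT.map_add, ih]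

theorem IsContr.apply {n p : ℕ} {T : (Fin n → A) → (Fin p → A)} (hT : IsContr T)
    (v : Fin n → A) (i : Fin p) : T v i = ∑ l, T (Pi.single l 1) i * v l := by
  classical
  have h1 : v = ∑ l, fun j => (Pi.single l (1 : A) : Fin n → A) j * v l := by
    funext j
    rw [Finset.sum_apply, Finset.sum_eq_single j]
    · rw [Pi.single_eq_same, one_mul]
    · intro b _ hb
      rw [Pi.single_eq_of_ne (Ne.symm hb), zero_mul]
    · intro h
      exact absurd (Finset.mem_univ j) h
  conv_lhs => rw [h1]
  rw [IsContr.sum hT, Finset.sum_apply]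
  refine Finset.sum_congr rfl fun l _ => ?_
  rw [hT.map_mul]

open CStarMatrix CStarModule in
/-- a matrix which is contractive on columns is a contraction -/
theorem norm_le_one {n : ℕ} (Y : CStarMatrix (Fin n) (Fin n) A)
    (h : ∀ v : Fin n → A, ip (fun i => ∑ l, Y i l * v l) (fun i => ∑ l, Y i l * v l) ≤ ip v v) :
    ‖Y‖ ≤ 1 := by
  rw [← norm_star Y, norm_def]
  refine ContinuousLinearMap.opNorm_le_bound _ zero_le_one fun v => ?_
  rw [one_mul]
  have h1 := h fun l => star (v l)
  have h2 : inner A (toCLM (star Y) v) (toCLM (star Y) v) =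
      ip (fun i => ∑ l, Y i l * star (v l)) (fun i => ∑ l, Y i l * star (v l)) := by
    rw [WithCStarModule.pi_inner]
    unfold ip
    refine Finset.sum_congr rfl fun i _ => ?_
    rw [toCLM_apply_eq_sum]
    change (∑ l, v l * star (Y i l)) * star (∑ l, v l * star (Y i l)) = _
    rw [star_sum, star_sum]
    simp only [star_mul, star_star]
  have h3 : inner A v v = ip (fun l => star (v l)) (fun l => star (v l)) := by
    rw [WithCStarModule.pi_inner]
    unfold ip
    refine Finset.sum_congr rfl fun i _ => ?_
    rw [star_star]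
    rfl
  have h4 : ‖inner A (toCLM (star Y) v) (toCLM (star Y) v)‖ ≤ ‖inner A v v‖ := by
    rw [h2, h3]
    exact CStarAlgebra.norm_le_norm_of_nonneg_of_le
      (Finset.sum_nonneg fun i _ => star_mul_self_nonneg _) h1
  have h5 := norm_sq_eq A (x := toCLM (star Y) v)
  have h6 := norm_sq_eq A (x := v)
  rw [← h5, ← h6] at h4
  exact (pow_le_pow_iff_left₀ (norm_nonneg _) (norm_nonneg _) two_ne_zero).1 h4

omit [PartialOrder A] [StarOrderedRing A] in
theorem ip_col {n : ℕ} (X : CStarMatrix (Fin n) (Fin n) A) (i j : Fin n) :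
    ip (fun l => X l i) (fun l => X l j) = (star X * X) i j := rfl

omit [PartialOrder A] [StarOrderedRing A] in
theorem mul_apply' {n : ℕ} (X Y : CStarMatrix (Fin n) (Fin n) A) (i j : Fin n) :
    (X * Y) i j = ∑ l, X i l * Y l j := rfl

/-- the matrix factorisation theorem gives the Douglas property of matrix algebras -/
theorem douglas_matrix_of_mat (h : MatStmt A) (n : ℕ) :
    Douglas (CStarMatrix (Fin n) (Fin n) A) := by
  intro W X hle
  obtain ⟨D, hD⟩ := exists_star_mul (sub_nonneg.2 hle)
  obtain ⟨T, hT, hTc⟩ := h n (n + n) n (fun l i => X l i)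
    (fun l i => Fin.addCases (motive := fun _ => A) (fun l => W l i) (fun l => D l i) l) (by
      intro i j
      unfold ip col
      rw [Fin.sum_univ_add]
      simp only [Fin.addCases_left, Fin.addCases_right]
      have h1 : (star X * X) i j = (star W * W) i j + (star D * D) i j := by
        rw [← CStarMatrix.add_apply, sub_eq_iff_eq_add'.1 hD]
      exact h1)
  set Y : CStarMatrix (Fin n) (Fin n) A :=
    CStarMatrix.ofMatrix (Matrix.of fun i l => T (Pi.single l 1) (Fin.castAdd n i)) with hY
  have hYv : ∀ (v : Fin n → A) (i : Fin n), ∑ l, Y i l * v l = T v (Fin.castAdd n i) := by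
    intro v i
    rw [IsContr.apply hT]
    rfl
  refine ⟨Y, norm_le_one Y fun v => ?_, ?_⟩
  · simp only [hYv]
    refine le_trans ?_ (hT.le v)
    unfold ip
    rw [Fin.sum_univ_add]
    exact le_add_of_nonneg_right (Finset.sum_nonneg fun i _ => star_mul_self_nonneg _)
  · ext i j
    rw [mul_apply', hYv (fun l => X l j) i]
    have h1 := congrFun (hTc j) (Fin.castAdd n i)
    have h2 : col (fun l i => X l i) j = fun l => X l j := rfl
    rw [h2] at h1
    rw [h1]
    exact (Fin.addCases_left (motive := fun _ => A) (left := fun l => W l j)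
      (right := fun l => D l j) i).symm

/-- the Douglas property passes to a corner -/
theorem douglas_of_matrix {n : ℕ} (i : Fin n) (h : Douglas (CStarMatrix (Fin n) (Fin n) A)) :
    Douglas A := by
  intro w x hle
  obtain ⟨d, hd⟩ := CStarAlgebra.nonneg_iff_eq_star_mul_self.1 (sub_nonneg.2 hle)
  set E : A → CStarMatrix (Fin n) (Fin n) A := fun a =>
    CStarMatrix.ofMatrix (Matrix.of fun k l => if k = i ∧ l = i then a else 0) with hE
  have hEa : ∀ a k l, E a k l = if k = i ∧ l = i then a else 0 := fun a k l => rfl
  have hsum : ∀ (a b : A) (k l : Fin n), (star (E a) * E b) k l = E (star a * b) k l := by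
    intro a b k l
    have h1 : (star (E a) * E b) k l = ∑ m, star (E a m k) * E b m l := rfl
    rw [h1, Finset.sum_eq_single i]
    · rw [hEa, hEa, hEa]
      by_cases hk : k = i
      · by_cases hl : l = i
        · simp [hk, hl]
        · simp [hl]
      · simp [hk]
    · intro m _ hm
      rw [hEa, if_neg (fun h => hm h.1), star_zero, zero_mul]
    · intro h
      exact absurd (Finset.mem_univ i) h
  have hle' : star (E w) * E w ≤ star (E x) * E x := by
    rw [← sub_nonneg]
    have h1 : star (E x) * E x - star (E w) * E w = star (E d) * E d := by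
      ext k l
      rw [CStarMatrix.sub_apply, hsum, hsum, hsum, ← hd, hEa, hEa, hEa]
      split_ifs
      · rfl
      · rw [sub_zero]
    rw [h1]
    exact star_mul_self_nonneg _
  obtain ⟨y, hy, hyx⟩ := h (E w) (E x) hle'
  refine ⟨y i i, CStarMatrix.norm_entry_le_norm.trans hy, ?_⟩
  have h1 : E w i i = (y * E x) i i := by rw [← hyx]
  rw [mul_apply', Finset.sum_eq_single i, hEa, hEa, if_pos ⟨rfl, rfl⟩, if_pos ⟨rfl, rfl⟩] at h1
  · exact h1
  · intro m _ hm
    rw [hEa, if_neg (fun h => hm h.1), mul_zero]
  · intro h
    exact absurd (Finset.mem_univ i) h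

/-- matrix algebras of size at least two have no characters -/
theorem isEmpty_character {n : ℕ} (hn : 2 ≤ n) :
    IsEmpty (WeakDual.characterSpace ℂ (CStarMatrix (Fin n) (Fin n) A)) := by
  refine ⟨fun χ => ?_⟩
  set E : Fin n → Fin n → CStarMatrix (Fin n) (Fin n) A := fun i j =>
    CStarMatrix.ofMatrix (Matrix.of fun k l => if k = i ∧ l = j then 1 else 0) with hE
  have hEa : ∀ i j k l, E i j k l = if k = i ∧ l = j then 1 else 0 := fun _ _ _ _ => rfl
  have hm : ∀ i j k l, E i j * E k l = if j = k then E i l else 0 := by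
    intro i j k l
    ext p q
    rw [mul_apply']
    simp only [hEa]
    by_cases hjk : j = k
    · subst hjk
      rw [if_pos rfl, hEa, Finset.sum_eq_single j]
      · by_cases hp : p = i <;> by_cases hq : q = l <;> simp [hp, hq]
      · intro b _ hb
        simp [hb]
      · intro h
        exact absurd (Finset.mem_univ j) h
    · rw [if_neg hjk]
      refine Finset.sum_eq_zero fun b _ => ?_
      by_cases hb : b = j
      · subst hb
        simp [hjk]
      · simp [hb]
  have h0 : ∀ i j, i ≠ j → χ (E i j) = 0 := by
    intro i j hij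
    have h1 : χ (E i j * E i j) = 0 := by
      rw [hm, if_neg (Ne.symm hij), map_zero]
    rw [map_mul] at h1
    exact mul_self_eq_zero.1 h1
  have h1 : ∀ i, χ (E i i) = 0 := by
    intro i
    obtain ⟨j, hj⟩ : ∃ j : Fin n, j ≠ i := by
      have : Nontrivial (Fin n) := Fin.nontrivial_iff_two_le.2 hn
      exact exists_ne i
    have h2 : E i i = E i j * E j i := by rw [hm, if_pos rfl]
    rw [h2, map_mul, h0 i j (Ne.symm hj), zero_mul]
  have h2 : (1 : CStarMatrix (Fin n) (Fin n) A) = ∑ i, E i i := by
    ext p q
    have h3 : (∑ i, E i i) p q = ∑ i, E i i p q := by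
      have : ∀ s : Finset (Fin n), (∑ i ∈ s, E i i) p q = ∑ i ∈ s, E i i p q := by
        classical
        intro s
        induction s using Finset.induction_on with
        | empty => rfl
        | insert a s ha ih => rw [Finset.sum_insert ha, Finset.sum_insert ha,
            CStarMatrix.add_apply, ih]
      exact this _
    rw [h3, CStarMatrix.one_apply]
    simp only [hEa]
    by_cases hpq : p = q
    · subst hpq
      rw [if_pos rfl, Finset.sum_eq_single p]
      · simp
      · intro b _ hb
        simp [Ne.symm hb]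
      · intro h
        exact absurd (Finset.mem_univ p) h
    · rw [if_neg hpq]
      symm
      refine Finset.sum_eq_zero fun b _ => ?_
      rw [if_neg]
      rintro ⟨rfl, rfl⟩
      exact hpq rfl
  have h3 : χ 1 = 1 := map_one χ
  rw [h2, map_sum, Finset.sum_eq_zero fun i _ => h1 i] at h3
  exact zero_ne_one h3

end

end MatrixAux

end Pool.Agent.Work.MP_3f690c_an.T3
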