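import Pool.Agent.Work.MP_3f690c_an.Suff
import Pool.Agent.Work.MP_3f690c_an.T3.Defs
import Pool.Agent.Work.MP_3f690c_an.T3.Matrix
import Pool.Agent.Work.MP_3f690c_an.T3.I_TOEP
import Pool.Agent.Work.MP_3f690c_an.T3.I_PROPF
import Pool.Agent.Work.MP_3f690c_an.T3.I_LEMP
import Pool.Agent.Work.MP_3f690c_an.T3.I_NICE
import Pool.Agent.Work.MP_3f690c_an.T3.I_PAIR
import Pool.Agent.Work.MP_3f690c_an.T3.I_UNIT
import Pool.Agent.Work.MP_3f690c_an.T3.I_COL
import Pool.Agent.Work.MP_3f690c_an.T3.I_SAW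
import Pool.Agent.Work.MP_3f690c_an.T3.I_DEF
import Pool.Agent.Work.MP_3f690c_an.T3.I_ELIM
import Pool.Agent.Work.MP_3f690c_an.T3.I_MAIN
import Pool.Agent.Work.MP_3f690c_an.T3.I_MAT
import Pool.Agent.Work.MP_3f690c_an.T3.I_DOUG
import Pool.Agent.Work.MP_3f690c_an.T3.I_STEP
import Pool.Agent.Work.MP_3f690c_an.T3.I_CHAR
import Pool.Agent.Work.MP_3f690c_an.T3.I_COMM

/-!
# Assembly
-/

open scoped ComplexOrder

namespace Pool.Agent.Work.MP_3f690c_an.T3

universe u

variable {A : Type u} [CStarAlgebra A] [PartialOrder A] [StarOrderedRing A]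


omit [StarOrderedRing A] in
theorem propF_of_douglas (h : Douglas A) : PropF A :=
  fun _ x w _ _ _ _ _ hw => h w x hw

theorem hasFrame_of_propF (hF : PropF A) (hA : SqZeroFull A) : HasFrame A := by
  obtain ⟨m, b, z, c, hz, h1⟩ := hA
  obtain ⟨δ, c', hδ, hs, hd⟩ := unitStmt m b z c h1
  have hp := fun j => pairStmt (fun z hz hz1 => nice_of_lemP (lemP hF) hz hz1) (z j) δ (hz j) hδ
  choose k k' hk hkt using hp
  refine ⟨m, k, k', c', hk, fun j => ?_, hs⟩
  obtain ⟨d, hd⟩ := hd j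
  rw [hd, ← mul_assoc, hkt]

theorem hasFrame_of_douglas (h : Douglas A) : HasFrame A := by
  refine ⟨1, fun _ => 1, fun _ => 1, fun _ => 1, fun _ => ?_, fun _ => by simp, by simp⟩
  exact ⟨zero_le_one, le_rfl, star_one _, one_mul _, fun x w _ hw => h w x hw⟩

theorem ptc_of_hasFrame (h : HasFrame A) : PTC A :=
  ptc_of_step fun k => stepProp_of_mat (matStmt (mainStmt (elimStmt colStmt sawStmt defectStmt)) h) k

theorem douglas_of_hasFrame (h : HasFrame A) : Douglas A :=
  douglas_of_mat (matStmt (mainStmt (elimStmt colStmt sawStmt defectStmt)) h)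

theorem ptc_of_douglas (h : Douglas A) : PTC A := ptc_of_hasFrame (hasFrame_of_douglas h)

theorem step_of_ptc (h : PTC A) : StepProp A 2 := h 2 3 (by norm_num) (by norm_num)

theorem douglas_of_step (hA : IsEmpty (WeakDual.characterSpace ℂ A)) (h : StepProp A 2) :
    Douglas A :=
  douglas_of_hasFrame (hasFrame_of_propF (propF_of_step toepDiag h)
    (sqZeroFull_of_comm comm_mem hA))

theorem characterization (hA : IsEmpty (WeakDual.characterSpace ℂ A)) :
    (PTC A ↔ Douglas A) ∧ (StepProp A 2 ↔ Douglas A) :=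
  ⟨⟨fun h => douglas_of_step hA (step_of_ptc h), ptc_of_douglas⟩,
    ⟨douglas_of_step hA, fun h => step_of_ptc (ptc_of_douglas h)⟩⟩

theorem douglas_matrix {n : ℕ} (h : Douglas A) : Douglas (CStarMatrix (Fin n) (Fin n) A) :=
  MatrixAux.douglas_matrix_of_mat
    (matStmt (mainStmt (elimStmt colStmt sawStmt defectStmt)) (hasFrame_of_douglas h)) n

theorem douglas_matrix_iff {n : ℕ} (hn : 2 ≤ n) :
    Douglas (CStarMatrix (Fin n) (Fin n) A) ↔ Douglas A :=
  ⟨MatrixAux.douglas_of_matrix (⟨0, by omega⟩ : Fin n), douglas_matrix⟩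

theorem characterization_matrix {n : ℕ} (hn : 2 ≤ n) :
    (PTC (CStarMatrix (Fin n) (Fin n) A) ↔ Douglas A) ∧
      (StepProp (CStarMatrix (Fin n) (Fin n) A) 2 ↔ Douglas A) := by
  have h := characterization (A := CStarMatrix (Fin n) (Fin n) A) (MatrixAux.isEmpty_character hn)
  rw [douglas_matrix_iff hn] at h
  exact h

end Pool.Agent.Work.MP_3f690c_an.T3
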